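import Pool.Agent.Y216.SV.Pd
import Pool.Agent.Y216.SV.Pi
import Pool.Agent.TH710.WH.Desc
import Pool.Agent.TH710.WH.Sch
import Pool.Agent.Y780.HC.Pts

/-!
Specialness, density of rational points and the weak Hilbert property for the closed subvarieties
of the varieties of the vectors whose powers are the values of a polynomial.
-/

set_option autoImplicit false

open AlgebraicGeometry CategoryTheory
open FF Pool.Agent.W603.LV Pool.Agent.W602.GT Pool.Agent.Y190.BV Pool.Agent.Y190.QP
  Pool.Agent.Y190.GN Pool.Agent.Y216.SV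
open Pool.Agent.TH710.WH

namespace Pool.Agent.U463.PV

/-- a polynomial over `k'` is a combination of polynomials over `k` with coefficients which are
linearly independent over `k` -/
theorem exists_decomp {k k' : Type} [Field k] [Field k'] [Algebra k k'] {σ : Type}
    (G : MvPolynomial σ k') : ∃ (r : ℕ) (b : Fin r → k') (g : Fin r → MvPolynomial σ k),
      LinearIndependent k b ∧ (∀ d, G.IsHomogeneous d → ∀ j, (g j).IsHomogeneous d) ∧
      G = ∑ j, MvPolynomial.C (b j) * MvPolynomial.map (algebraMap k k') (g j) := by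
  classical
  let W : Submodule k k' := Submodule.span k ((G.support.image fun α => G.coeff α : Finset k') : Set k')
  have hW : FiniteDimensional k W := FiniteDimensional.span_finset k _
  let B := Module.finBasis k W
  have hmem : ∀ α, G.coeff α ∈ W := by
    intro α
    by_cases h : α ∈ G.support
    · exact Submodule.subset_span (Finset.mem_coe.2 (Finset.mem_image_of_mem _ h))
    · rw [MvPolynomial.notMem_support_iff.1 h]
      exact W.zero_mem
  let c : (σ →₀ ℕ) → Fin (Module.finrank k W) → k := fun α => B.repr ⟨G.coeff α, hmem α⟩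
  have hc : ∀ α, G.coeff α = ∑ j, algebraMap k k' (c α j) * (B j : k') := by
    intro α
    have h1 := congrArg (Subtype.val : W → k') (B.sum_repr ⟨G.coeff α, hmem α⟩)
    rw [AddSubmonoidClass.coe_finsetSum] at h1
    refine h1.symm.trans (Finset.sum_congr rfl fun j _ => ?_)
    rw [Submodule.coe_smul, Algebra.smul_def]
  let g : Fin (Module.finrank k W) → MvPolynomial σ k := fun j =>
    ∑ α ∈ G.support, MvPolynomial.monomial α (c α j)
  have hg : ∀ j α, (g j).coeff α = if α ∈ G.support then c α j else 0 := by
    intro j α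
    simp only [g, MvPolynomial.coeff_sum, MvPolynomial.coeff_monomial]
    rw [Finset.sum_ite_eq']
  refine ⟨_, fun j => (B j : k'), g, ?_, fun d hd j α hα => ?_, ?_⟩
  · exact B.linearIndependent.map' W.subtype (Submodule.ker_subtype W)
  · rw [hg] at hα
    have h1 : α ∈ G.support := by
      by_contra h
      rw [if_neg h] at hα
      exact hα rfl
    exact hd (MvPolynomial.mem_support_iff.1 h1)
  · ext α
    rw [MvPolynomial.coeff_sum, hc α]
    refine Finset.sum_congr rfl fun j _ => ?_
    rw [MvPolynomial.coeff_C_mul, MvPolynomial.coeff_map, hg]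
    by_cases h : α ∈ G.support
    · rw [if_pos h, mul_comm]
    · rw [if_neg h, map_zero, mul_zero]
      have h0 : (⟨G.coeff α, hmem α⟩ : W) = 0 := Subtype.ext (MvPolynomial.notMem_support_iff.1 h)
      have h1 : c α j = 0 := by
        simp only [c]
        rw [h0, map_zero, Finsupp.zero_apply]
      rw [h1, map_zero, zero_mul]

section

variable {k k' K L : Type} [Field k] [Field k'] [Field K] [Field L] [Algebra k k'] [Algebra k K]
  [Algebra k L] [Algebra k' L] [Algebra K L] [IsScalarTower k k' L] [IsScalarTower k K L]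

/-- linear disjointness, symmetric form -/
theorem disj_symm (hd : LinDisjoint k k' K L) {r : ℕ} {b : Fin r → k'}
    (hb : LinearIndependent k b) {u : Fin r → K}
    (h : ∑ j, algebraMap k' L (b j) * algebraMap K L (u j) = 0) : ∀ j, u j = 0 := by
  classical
  let W : Submodule k K := Submodule.span k (Set.range u)
  have hW : FiniteDimensional k W := FiniteDimensional.span_of_finite k (Set.finite_range u)
  let B := Module.finBasis k W
  have hmem : ∀ j, u j ∈ W := fun j => Submodule.subset_span ⟨j, rfl⟩
  let c : Fin r → Fin (Module.finrank k W) → k := fun j => B.repr ⟨u j, hmem j⟩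
  have hc : ∀ j, u j = ∑ i, algebraMap k K (c j i) * (B i : K) := by
    intro j
    have h1 := congrArg (Subtype.val : W → K) (B.sum_repr ⟨u j, hmem j⟩)
    rw [AddSubmonoidClass.coe_finsetSum] at h1
    refine h1.symm.trans (Finset.sum_congr rfl fun i _ => ?_)
    rw [Submodule.coe_smul, Algebra.smul_def]
  have hB : LinearIndependent k (fun i => (B i : K)) :=
    B.linearIndependent.map' W.subtype (Submodule.ker_subtype W)
  have h1 := hd _ _ hB
  rw [Fintype.linearIndependent_iff] at h1
  have h2 : ∀ i, ∑ j, algebraMap k k' (c j i) * b j = 0 := by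
    refine h1 (fun i => ∑ j, algebraMap k k' (c j i) * b j) ?_
    rw [← h]
    simp only [Algebra.smul_def, map_sum, map_mul, Finset.sum_mul]
    rw [Finset.sum_comm]
    refine Finset.sum_congr rfl fun j _ => ?_
    conv_rhs => rw [hc j, map_sum, Finset.mul_sum]
    refine Finset.sum_congr rfl fun i _ => ?_
    rw [map_mul, ← IsScalarTower.algebraMap_apply k k' L, ← IsScalarTower.algebraMap_apply k K L]
    ring
  have h3 : ∀ i j, c j i = 0 := by
    intro i
    refine Fintype.linearIndependent_iff.1 hb (fun j => c j i) ?_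
    rw [← h2 i]
    refine Finset.sum_congr rfl fun j _ => ?_
    rw [Algebra.smul_def]
  intro j
  rw [hc j]
  refine Finset.sum_eq_zero fun i _ => ?_
  rw [h3 i j, map_zero, zero_mul]

/-- density of the `k`-points of a model implies density in every projective model over `k'` -/
theorem dense_of_points [CharZero k] [CharZero k']
    (hk : ∃ S : Finset k, IntermediateField.adjoin ℚ (S : Set k) = ⊤) (hd : LinDisjoint k k' K L) {N : ℕ} {y : Fin (N + 1) → K}
    (hy0 : y ≠ 0)
    (hpts : ∀ (M : ℕ) (x : Fin M → K) (G : MvPolynomial (Fin M) k),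
      MvPolynomial.aeval x G ≠ 0 → ∃ c : Fin M → k, (∀ P : MvPolynomial (Fin M) k,
        MvPolynomial.aeval x P = 0 → MvPolynomial.eval c P = 0) ∧ MvPolynomial.eval c G ≠ 0)
    (k0 : Subfield k') : DenseOver (fun i => algebraMap K L (y i)) k0 := by
  classical
  obtain ⟨S, hS⟩ := hk
  refine ⟨S.image (algebraMap k k'), fun G hG hvan => ?_⟩
  have hfield : ∀ x : k, algebraMap k k' x ∈
      Subfield.closure ((k0 : Set k') ∪ ((S.image (algebraMap k k') : Finset k') : Set k')) := by
    intro x
    have hx : x ∈ IntermediateField.adjoin ℚ (S : Set k) := by rw [hS]; trivial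
    induction hx using IntermediateField.adjoin_induction with
    | mem x hx =>
      exact Subfield.subset_closure (Or.inr (Finset.mem_coe.2 (Finset.mem_image_of_mem _ hx)))
    | algebraMap q =>
      have h1 : algebraMap k k' (algebraMap ℚ k q) = (q : k') := by
        rw [eq_ratCast, map_ratCast]
      rw [h1]
      exact SubfieldClass.ratCast_mem _ q
    | add x y _ _ h1 h2 => rw [map_add]; exact add_mem h1 h2
    | inv x _ h1 => rw [map_inv₀]; exact inv_mem h1
    | mul x y _ _ h1 h2 => rw [map_mul]; exact mul_mem h1 h2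
  -- values of polynomials over `k'` in terms of those over `k`
  have hvL : ∀ (H : MvPolynomial (Fin (N + 1)) k),
      MvPolynomial.aeval (fun i => algebraMap K L (y i))
        (MvPolynomial.map (algebraMap k k') H) = algebraMap K L (MvPolynomial.aeval y H) := by
    intro H
    rw [MvPolynomial.aeval_map_algebraMap]
    exact MvPolynomial.aeval_algebraMap_apply L y H
  have hvk : ∀ (c : Fin (N + 1) → k) (H : MvPolynomial (Fin (N + 1)) k),
      MvPolynomial.aeval (fun i => algebraMap k k' (c i))
        (MvPolynomial.map (algebraMap k k') H) = algebraMap k k' (MvPolynomial.eval c H) := by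
    intro c H
    rw [MvPolynomial.aeval_map_algebraMap]
    have h1 := MvPolynomial.aeval_algebraMap_apply k' c H
    have h2 : MvPolynomial.aeval c H = MvPolynomial.eval c H := by
      rw [MvPolynomial.aeval_eq_eval]
    rw [h2] at h1
    exact h1
  by_contra hne
  obtain ⟨d, hGd⟩ := hG
  obtain ⟨r, b, g, hb, hgh, hGe⟩ := exists_decomp (k := k) G
  have hGy : ∃ j, MvPolynomial.aeval y (g j) ≠ 0 := by
    by_contra hcon
    push Not at hcon
    apply hne
    unfold val
    rw [hGe, map_sum]
    refine Finset.sum_eq_zero fun j _ => ?_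
    rw [map_mul, hvL, hcon j, map_zero, mul_zero]
  obtain ⟨j, hj⟩ := hGy
  obtain ⟨i0, hi0⟩ := Function.ne_iff.1 hy0
  have hi0' : y i0 ≠ 0 := hi0
  let x : Fin (N + 1) → K := fun i => y i / y i0
  have hxy : x = (y i0)⁻¹ • y := by
    funext i
    rw [Pi.smul_apply, smul_eq_mul]
    exact div_eq_inv_mul _ _
  have hhom : ∀ (e : ℕ) (H : MvPolynomial (Fin (N + 1)) k), H.IsHomogeneous e →
      MvPolynomial.aeval x H = (y i0)⁻¹ ^ e * MvPolynomial.aeval y H := by
    intro e H hH
    rw [hxy]
    exact Pool.Agent.H159R3.Lang.aeval_smul_homog hH (y i0)⁻¹ y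
  obtain ⟨c, hc, hcj⟩ := hpts (N + 1) x (g j) (by
    rw [hhom d _ (hgh d hGd j)]
    exact mul_ne_zero (pow_ne_zero _ (inv_ne_zero hi0')) hj)
  have hci0 : c i0 = 1 := by
    have h1 := hc (MvPolynomial.X i0 - 1) (by
      rw [map_sub, MvPolynomial.aeval_X, map_one]
      change y i0 / y i0 - 1 = 0
      rw [div_self hi0', sub_self])
    rw [map_sub, MvPolynomial.eval_X, map_one] at h1
    exact sub_eq_zero.1 h1
  have h0 := hvan (fun i => algebraMap k k' (c i)) ⟨fun h => ?_, fun G' hG' hG'y => ?_⟩
    (fun i => hfield _)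
  · -- the value of `G`
    unfold val at h0
    rw [hGe, map_sum] at h0
    simp only [map_mul, hvk, MvPolynomial.aeval_C, Algebra.algebraMap_self, RingHom.id_apply] at h0
    apply hcj
    refine Fintype.linearIndependent_iff.1 hb (fun j => MvPolynomial.eval c (g j)) ?_ j
    rw [← h0]
    refine Finset.sum_congr rfl fun j _ => ?_
    rw [Algebra.smul_def, mul_comm]
  · have h1 := congrFun h i0
    simp only [hci0, map_one, Pi.zero_apply] at h1
    exact one_ne_zero h1
  · obtain ⟨e, hG'e⟩ := hG'
    obtain ⟨r', b', g', hb', hgh', hG'd⟩ := exists_decomp (k := k) G'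
    unfold val at hG'y ⊢
    rw [hG'd, map_sum] at hG'y
    simp only [map_mul, hvL, MvPolynomial.aeval_C] at hG'y
    have h1 := disj_symm hd hb' hG'y
    rw [hG'd, map_sum]
    refine Finset.sum_eq_zero fun l _ => ?_
    rw [map_mul, hvk, hc (g' l) (by rw [hhom e _ (hgh' e hG'e l), h1 l, mul_zero]), map_zero,
      mul_zero]

end

/-- **Specialness, potential density and the weak Hilbert property.** -/
theorem whp_tfae {k : Type} [Field k] [CharZero k]
    (hk : ∃ S : Finset k, IntermediateField.adjoin ℚ (S : Set k) = ⊤)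
    {k' : Type} [Field k'] [IsAlgClosed k'] [CharZero k'] [Algebra k k']
    {N n m w : ℕ} (hm : 2 ≤ m) (hn : 1 ≤ n) (hnm : n < 2 * m)
    (hN : 4 * n + (n + 1) ^ 2 < 2 * (N + 1)) {a : Fin (N + 1) → k'} (ha : Function.Injective a)
    {k0 : Subfield k'} (hk0 : Moving k0 a n)
    (X : Scheme.{0}) [IsIntegral X] (f : X ⟶ Spec (CommRingCat.of k)) [LocallyOfFiniteType f]
    (hX : ∀ x : X, IsIntegrallyClosed (X.presheaf.stalk x))
    {K : Type} [Field K] [Algebra k K] (hK : HasFunctionField k K X f)
    {L : Type} [Field L] [Algebra k L] [Algebra k' L] [Algebra K L] [IsScalarTower k k' L]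
    [IsScalarTower k K L] (hL : LinDisjoint k k' K L)
    {y : Fin (N + 1) → K} (hgen : coords k y = ⊤)
    (hy : SubVar (buchi a n m) L w (fun i => algebraMap K L (y i))) :
    [Special k' L w (fun _ => False),
      DenseOver (fun i => algebraMap K L (y i)) (⊥ : Subfield k'),
      DenseOver (fun i => algebraMap K L (y i)) k0,
      RationalPointsDense k X f, WeakHilbertProperty k X f,
      IsPoint k' (fun i => algebraMap K L (y i)) ∨ IsLine k' (fun i => algebraMap K L (y i))].TFAE := by
  classical
  have hinf : Infinite k' := inferInstance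
  have hy0 : y ≠ 0 := by
    rintro rfl
    apply hy.ne
    funext i
    simp
  have hoff : OffU (∅ : Set (Fin (N + 1))) (k := k') (fun i => algebraMap K L (y i)) =
      fun _ => False := by
    funext P
    apply propext
    constructor
    · rintro ⟨j, hj, -⟩
      exact absurd hj (Set.notMem_empty j)
    · exact fun h => h.elim
  have hsp := special_iff hm hnm hN ha (U := ∅) hy (fun j hj => absurd hj (Set.notMem_empty j))
  rw [hoff, Set.ncard_empty] at hsp
  tfae_have 1 ↔ 6 := by
    rw [hsp]
    exact or_congr Iff.rfl ⟨fun h => h.2, fun h => ⟨Nat.zero_le _, h⟩⟩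
  tfae_have 6 → 5 := by
    intro h
    have h1 : PurelyTranscendental k K := rational_of_lin hL hy0 hgen (hull_var h)
    exact (whp_of_rational hk h1 X f hK hX).2
  tfae_have 5 → 4 := by
    intro h
    have h3 := h 0 (fun i => i.elim0) (fun i => i.elim0) (fun i => i.elim0)
        (fun i => i.elim0) (fun i => i.elim0) (fun i => i.elim0) (fun i => i.elim0)
    refine h3.mono ?_
    rintro x ⟨s, hs, hx, -⟩
    exact ⟨s, hs, hx⟩
  have hden : ∀ k1 : Subfield k', RationalPointsDense k X f →
      DenseOver (fun i => algebraMap K L (y i)) k1 := by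
    intro k1 h
    refine dense_of_points hk hL hy0 (fun M x G hG => ?_) k1
    exact Pool.Agent.Y780.HC.sPts k X f K hK h M x G hG
  tfae_have 4 → 2 := hden _
  tfae_have 2 → 3 := by
    rintro ⟨T, hT⟩
    refine ⟨T, fun G hG h => hT G hG fun x hx hxT => h x hx fun i => ?_⟩
    refine Subfield.closure_le.2 ?_ (hxT i)
    rintro z (hz | hz)
    · have h1 : (⊥ : Subfield k') ≤ Subfield.closure ((k0 : Set k') ∪ (T : Set k')) := bot_le
      exact h1 hz
    · exact Subfield.subset_closure (Or.inr hz)
  tfae_have 3 → 6 := fun h => point_or_line_of_dense hm hn hnm hN ha hk0 hy h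
  tfae_finish

end Pool.Agent.U463.PV
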