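import Pool.Agent.U463.PV.Tra2
import Pool.Agent.Y190.GN.Seq
import Pool.Agent.Y190.SN.Simp

/-!
(After `Pool.Agent.Y190.GN.Seq`, for polynomials of any degree.) Finiteness of the vectors whose
`m`-th powers are the values of a polynomial without factors of multiplicity `m` at many constant
nodes and some nonconstant nodes.
-/

set_option autoImplicit false

open Polynomial FF Pool.Agent.W603.LV Pool.Agent.W603.PV Pool.Agent.W602.RG Pool.Agent.TH145.MF
  Pool.Agent.Y190.BV Pool.Agent.Y190.GN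

namespace Pool.Agent.U463.PV

/-- **Finiteness.** -/
theorem fin_freeS {k L : Type} [Field k] [IsAlgClosed k] [CharZero k] [Field L] [Algebra k L]
    [IsFF k L] {m d q r : ℕ} (hm : 2 ≤ m) (hq : 4 * d < q)
    {y : Fin (r + 1) → L} (hy : Function.Injective y) {x : Fin q → k} (hx : Function.Injective x)
    (hxy : ∀ i, ∃ j, y j = algebraMap k L (x i))
    (hmov : ∃ S : Finset (Fin (r + 1)), d ≤ S.card ∧ ∀ j ∈ S, ∀ c : k, y j ≠ algebraMap k L c)
    (j0 : Fin (r + 1)) :
    {z : Fin (r + 1) → L | z j0 = 1 ∧ ∃ H : L[X], H.natDegree ≤ d ∧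
      (∀ p : L[X], Irreducible p → ¬ p ^ m ∣ H) ∧ ∀ j, z j ^ m = H.eval (y j)}.Finite := by
  classical
  by_contra hinf
  obtain ⟨M, hM⟩ : ∃ M, M = {z : Fin (r + 1) → L | z j0 = 1 ∧ ∃ H : L[X], H.natDegree ≤ d ∧
      (∀ p : L[X], Irreducible p → ¬ p ^ m ∣ H) ∧ ∀ j, z j ^ m = H.eval (y j)} := ⟨_, rfl⟩
  rw [← hM] at hinf
  have hinf' : M.Infinite := hinf
  have hM1 : ∀ z ∈ M, z j0 = 1 := fun z hz => by rw [hM] at hz; exact hz.1
  have hM2 : ∀ z ∈ M, ∃ H : L[X], H.natDegree ≤ d ∧
      (∀ p : L[X], Irreducible p → ¬ p ^ m ∣ H) ∧ ∀ j, z j ^ m = H.eval (y j) :=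
    fun z hz => by rw [hM] at hz; exact hz.2
  -- the heights
  obtain ⟨B, hB0, hB⟩ := hgt_bound (k := k) (L := L) hm hq (∑ j, hgt k (y j))
  have hyY : ∀ j, hgt k (y j) ≤ ∑ j, hgt k (y j) := fun j =>
    Finset.single_le_sum (f := fun j => hgt k (y j)) (fun j _ => hgt_nonneg (y j))
      (Finset.mem_univ j)
  have hhgt : ∀ z ∈ M, ∀ j, hgt k (z j) ≤ B := by
    intro z hz j
    obtain ⟨H, hHd, hHf, hHz⟩ := hM2 z hz
    by_cases hj : z j = 0
    · rw [hj, hgt_zero]; exact hB0
    have h0 : H.eval (y j0) = 1 := by rw [← hHz j0, hM1 z hz, one_pow]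
    have hH : H ≠ 0 := by
      rintro rfl
      rw [Polynomial.eval_zero] at h0
      exact zero_ne_one h0
    have h1 := hB x hx H hH hHd (fun i => by
      obtain ⟨j, hj⟩ := hxy i
      exact ⟨z j, by rw [hHz j, hj]⟩) hHf (y j) (y j0) (hyY j) (hyY j0)
    rw [h0, div_one, ← hHz j, hgt_pow hj] at h1
    have h2 : 0 ≤ hgt k (z j) := hgt_nonneg _
    have h3 : (1 : ℤ) ≤ m := by exact_mod_cast (by omega : 1 ≤ m)
    nlinarith
  -- a coordinate with infinitely many values
  obtain ⟨i1, hi1⟩ : ∃ i1, ((fun f : Fin (r + 1) → L => f i1) '' M).Infinite := by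
    by_contra hcon
    push Not at hcon
    apply hinf'
    apply (Set.Finite.pi' (t := fun j : Fin (r + 1) => (fun f : Fin (r + 1) → L => f j) '' M)
      (fun j => hcon j)).subset
    intro f hf j
    exact ⟨f, hf, rfl⟩
  obtain ⟨p, u, θ, hu, hθ, hval⟩ := Pool.Agent.W764.RG.Seq.main k L B _ hi1 (by
    rintro _ ⟨f, hf, rfl⟩
    exact hhgt f hf i1)
  choose g hgM hgu using hu
  have hg1 : ∀ l, g l j0 = 1 := fun l => hM1 _ (hgM l)
  choose Hs hHd hHf hHz using fun l => hM2 _ (hgM l)
  -- homogeneous coordinates in a finite dimensional space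
  obtain ⟨V, hV, hVf⟩ := Pool.Agent.W369.RG.RIE.main k L r (∑ _j : Fin (r + 1), B)
  have hφ : ∀ l, ∃ φ : L, φ ≠ 0 ∧ ∀ j, φ * g l j ∈ V := fun l =>
    hVf (g l) ⟨j0, by rw [hg1]; exact one_ne_zero⟩ (by
      have h1 := Pool.Agent.W603.PV.pht_le (k := k) (g l) (l := j0)
        (by rw [hg1]; exact one_ne_zero)
      refine h1.trans (Finset.sum_le_sum fun j _ => ?_)
      rw [hg1, div_one]
      exact hhgt _ (hgM l) j)
  choose φ hφ0 hφV using hφ
  have hφE : Om.mk φ ∈ EE k L := by
    apply Pool.Agent.W61.RG.GSP.main k L V hV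
    intro l
    have := hφV l j0
    rwa [hg1, mul_one] at this
  have hφne : Om.mk φ ≠ 0 := Om.mk_ne_zero hφ0
  have hgE : ∀ j, Om.mk (fun l => g l j) ∈ EE k L := by
    intro j
    have h1 : Om.mk (fun l => φ l * g l j) ∈ EE k L :=
      Pool.Agent.W61.RG.GSP.main k L V hV _ fun l => hφV l j
    have h2 : Om.mk (fun l => g l j) = Om.mk (fun l => φ l * g l j) / Om.mk φ := by
      rw [← Om.mk_mul, mul_div_cancel_left₀ _ hφne]
    rw [h2]
    exact div_mem h1 hφE
  let fE : Fin (r + 1) → EE k L := fun j => ⟨Om.mk fun l => g l j, hgE j⟩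
  have hfE : ∀ j, (fE j : Om L) = Om.mk fun l => g l j := fun j => rfl
  have hf1 : fE j0 = 1 := by
    apply Subtype.ext
    rw [hfE]
    change _ = Om.mk fun _ => (1 : L)
    congr 1
    funext l
    exact hg1 l
  -- the fields
  have hBC : BC k L (Om k) (EE k L) := Pool.Agent.W736.RG.main k L
  have hAC : IsAlgClosed (Om k) := Pool.Agent.W917.RG.GAC.main k
  have hCZ : CharZero (Om k) :=
    charZero_of_injective_algebraMap (algebraMap k (Om k)).injective
  have hcL : CharZero L := charZero_of_injective_algebraMap (algebraMap k L).injective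
  have hcE : CharZero (EE k L) := charZero_of_injective_algebraMap (algebraMap k (EE k L)).injective
  have hFF : IsFF (Om k) (EE k L) := Pool.Agent.W215.RG.ISF.main k L _ _ hBC
  obtain ⟨D0, hD0⟩ := Pool.Agent.W160.RG.DER.main k (Om k) (Om.mk θ)
    (Pool.Agent.W32.RG.GTR.main k θ hθ)
  obtain ⟨D, hD⟩ := Pool.Agent.W797.RG.main k L _ _ hBC D0
  have hregC : ∀ P : Place (Om k) (EE k L), (∃ l : L, P.ord (algebraMap L (EE k L) l) ≠ 0) →
      Reg0 D P := Pool.Agent.W215.RG.RGC.main k L _ _ hBC D D0 hD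
  have hreg : ∀ P : Place (Om k) (EE k L), Reg0 D P ∨ Mov D P := by
    intro P
    by_cases h : ∃ l : L, P.ord (algebraMap L (EE k L) l) ≠ 0
    · exact Or.inl (hregC P h)
    · push Not at h
      exact Pool.Agent.W440.RG.RGM.main k L _ _ hBC D D0 hD P h
  -- the coordinate with infinitely many values is moving
  obtain ⟨P1, hP1, hP1v⟩ := Pool.Agent.W374.RG.GPL.main k L p
  have hDi1 : D (fE i1) ≠ 0 := by
    intro h0
    have h1 : fE i1 - algebraMap (Om k) (EE k L) (Om.mk θ) = 0 ∨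
        0 < P1.ord (fE i1 - algebraMap (Om k) (EE k L) (Om.mk θ)) := by
      refine hP1v _ (fun l => g l i1 - algebraMap k L (θ l)) ?_ fun l => ?_
      · change Om.mk (fun l => g l i1) - mapOm k L (Om.mk θ) = _
        rw [mapOm_mk, Om.mk_sub]
      · have h4 : g l i1 = u l := hgu l
        change g l i1 - algebraMap k L (θ l) = 0 ∨ 0 < p.ord (g l i1 - algebraMap k L (θ l))
        rw [h4, sub_eq_zero]
        exact hval l
    have h2 : D (fE i1 - algebraMap (Om k) (EE k L) (Om.mk θ)) =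
        - algebraMap (Om k) (EE k L) (D0 (Om.mk θ)) := by
      rw [map_sub, h0, hD, zero_sub]
    have h3 : algebraMap (Om k) (EE k L) (D0 (Om.mk θ)) ≠ 0 := (_root_.map_ne_zero _).2 hD0
    rcases h1 with h | h
    · rw [h, map_zero] at h2
      exact h3 (neg_eq_zero.1 h2.symm)
    · have h4 := hregC P1 hP1 (fE i1 - algebraMap (Om k) (EE k L) (Om.mk θ))
        (by rw [h2]; exact neg_ne_zero.2 h3)
      rw [h2, P1.ord_neg, P1.ord_const hD0] at h4
      omega
  -- the polynomial over the large field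
  choose jx hjx using hxy
  let xs : Fin (d + 1) → k := fun s => x (Fin.castLE (by omega) s)
  have hxs : Function.Injective xs := fun a b hab => Fin.castLE_injective _ (hx hab)
  let js : Fin (d + 1) → Fin (r + 1) := fun s => jx (Fin.castLE (by omega) s)
  have hjs : ∀ s, y (js s) = algebraMap k L (xs s) := fun s => hjx _
  have hHs : ∀ l, Hs l = ∑ s, C (g l (js s) ^ m) *
      (Lagrange.basis Finset.univ xs s).map (algebraMap k L) := by
    intro l
    conv_lhs => rw [lagrange_map (hHd l) hxs]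
    refine Finset.sum_congr rfl fun s _ => ?_
    rw [hHz l (js s), hjs]
  obtain ⟨HE, hHE⟩ : ∃ HE : (EE k L)[X], HE = ∑ s, C (fE (js s) ^ m) *
      ((Lagrange.basis Finset.univ xs s).map (algebraMap k L)).map (algebraMap L (EE k L)) :=
    ⟨_, rfl⟩
  have hbas : ∀ s, (Lagrange.basis Finset.univ xs s).natDegree ≤ d := by
    intro s
    have h1 := Lagrange.degree_basis (s := (Finset.univ : Finset (Fin (d + 1)))) (v := xs)
      hxs.injOn (Finset.mem_univ s)
    rw [Finset.card_univ, Fintype.card_fin, Nat.add_sub_cancel] at h1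
    exact (natDegree_eq_of_degree_eq_some h1).le
  have hHEd : HE.natDegree ≤ d := by
    rw [hHE]
    refine natDegree_sum_le_of_forall_le _ _ fun s _ => ?_
    refine (natDegree_C_mul_le _ _).trans (natDegree_map_le.trans (natDegree_map_le.trans ?_))
    exact hbas s
  have hHEc : ∀ i, ((HE.coeff i : EE k L) : Om L) = Om.mk fun l => (Hs l).coeff i := by
    intro i
    have h1 : (Om.mk fun l => (Hs l).coeff i) = mkHom L (∑ s, (fun l => g l (js s)) ^ m *
        fun _ => algebraMap k L ((Lagrange.basis Finset.univ xs s).coeff i)) := by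
      rw [mkHom_apply]
      congr 1
      funext l
      rw [hHs l]
      simp only [finsetSum_coeff, coeff_C_mul, coeff_map, Finset.sum_apply, Pi.mul_apply,
        Pi.pow_apply]
    rw [h1, hHE, finsetSum_coeff, ← Subfield.coe_subtype, map_sum, map_sum]
    refine Finset.sum_congr rfl fun s _ => ?_
    rw [coeff_C_mul, coeff_map, coeff_map, map_mul, map_pow, map_mul, map_pow,
      Subfield.coe_subtype, hfE, coe_algebraMap_L]
    rfl
  have hHEz : ∀ j, fE j ^ m = HE.eval (algebraMap L (EE k L) (y j)) := by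
    intro j
    apply Subtype.ext
    rw [eval_coe hHEd hHd hHEc (τ := fun _ => y j) (by rw [coe_algebraMap_L]; rfl)]
    have h1 : ((fE j ^ m : EE k L) : Om L) = mkHom L ((fun l => g l j) ^ m) := by
      rw [map_pow, mkHom_apply, ← hfE]
      rfl
    rw [h1, mkHom_apply]
    congr 1
    funext l
    rw [Pi.pow_apply]
    exact hHz l j
  have hHEne : HE ≠ 0 := by
    intro h0
    have h1 := hHEz j0
    rw [hf1, one_pow, h0, Polynomial.eval_zero] at h1
    exact one_ne_zero h1
  have hfree : ∀ p : (EE k L)[X], Irreducible p → ¬ p ^ m ∣ HE := by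
    intro p hp hdvd
    obtain ⟨l, p', hp', hl⟩ := dvd_coe hHEd hHd hHEc hp.natDegree_pos hdvd
    have hp'0 : p' ≠ 0 := by
      rintro rfl
      rw [natDegree_zero] at hp'
      omega
    obtain ⟨π, p'', hπ, h1⟩ := Pool.Agent.Y190.SN.exists_irr hp'0 hp'
    exact hHf l π hπ ((pow_dvd_pow_of_dvd (Dvd.intro _ h1.symm) m).trans hl)
  exact hDi1 (Pool.Agent.Y190.GN.der_zero (k := k) (L := L) (Ω := Om k) (E := EE k L) hBC hreg
    (fun c => ⟨D0 c, hD c⟩) hm hq hy hx (fun i => ⟨jx i, hjx i⟩) hmov hf1 hHEd hfree hHEz i1)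

end Pool.Agent.U463.PV
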