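import Pool.Agent.Y190.GN.Glob
import Pool.Agent.U463.PV.Seq2

/-!
The points over a function field of the varieties of the vectors whose powers are the values of a
polynomial: finitely many points, and points on finitely many lines. The polynomials have any degree;
they are not divisible by the `m`-th power of a polynomial of degree two.
-/

set_option autoImplicit false

open Polynomial FF Pool.Agent.W603.LV Pool.Agent.W603.PV Pool.Agent.W602.GT Pool.Agent.Y190.BV
  Pool.Agent.Y190.GN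
open Pool.Agent.Y190.SN (Simple)

namespace Pool.Agent.U463.PV

theorem free_mul_C {L : Type} [Field L] {m : ℕ} {c : L} (hc : c ≠ 0) {Q : L[X]}
    (hQ : ∀ p : L[X], Irreducible p → ¬ p ^ m ∣ Q) (p : L[X]) (hp : Irreducible p) :
    ¬ p ^ m ∣ C c * Q := by
  intro h
  apply hQ p hp
  have h1 : Q = C c⁻¹ * (C c * Q) := by
    rw [← mul_assoc, ← C_mul, inv_mul_cancel₀ hc, C_1, one_mul]
  rw [h1]
  exact h.mul_left _

/-- the polynomial has coefficients in the small field -/
theorem exists_smallS {L K : Type} [Field L] [Field K] [Algebra L K] {N n m : ℕ} (hn : n ≤ N)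
    {a : Fin (N + 1) → L} (ha : Function.Injective a) {y : Fin (N + 1) → L} {H : K[X]}
    (hd : H.natDegree ≤ n) (hH : ∀ j, H.eval (algebraMap L K (a j)) = algebraMap L K (y j) ^ m)
    (hs : Simple m H) :
    ∃ H' : L[X], H'.natDegree ≤ n ∧ (∀ j, y j ^ m = H'.eval (a j)) ∧ Simple m H' := by
  obtain ⟨H', h1, h2⟩ := exists_small (m := m) hn ha hd hH
  refine ⟨H', h1, h2, fun q hq => ?_⟩
  have h3 : H'.map (algebraMap L K) = H := by
    rw [← sub_eq_zero]
    refine Polynomial.eq_zero_of_natDegree_lt_card_of_eval_eq_zero _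
      (f := fun i : Fin (N + 1) => algebraMap L K (a i))
      (fun i j h => ha ((algebraMap L K).injective h)) (fun i => ?_) ?_
    · rw [Polynomial.eval_sub, eval_map_algebraMap, aeval_algebraMap_apply, coe_aeval_eq_eval,
        ← h2, map_pow, hH, sub_self]
    · rw [Fintype.card_fin]
      have h5 := Polynomial.natDegree_sub_le (H'.map (algebraMap L K)) H
      have h6 := Polynomial.natDegree_map_le (f := algebraMap L K) (p := H')
      omega
  have h4 := hs (q.map (algebraMap L K)) (by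
    rw [← h3, ← Polynomial.map_pow]
    exact Polynomial.map_dvd _ hq)
  rwa [Polynomial.natDegree_map] at h4

/-- a root of multiplicity `m` -/
theorem exists_root_powS {L : Type} [Field L] {m n : ℕ} {H : L[X]} (hH : H ≠ 0)
    (hd : H.natDegree ≤ n) (hs : Simple m H) (h : ¬ ∀ p : L[X], Irreducible p → ¬ p ^ m ∣ H) :
    m ≤ n ∧ ∃ (t : L) (Q : L[X]), Q ≠ 0 ∧ Q.natDegree ≤ n - m ∧ H = (X - C t) ^ m * Q ∧
      ∀ p : L[X], Irreducible p → ¬ p ^ m ∣ Q := by
  push Not at h
  obtain ⟨p, hp, hdvd⟩ := h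
  have h2 : p.natDegree = 1 := by
    have := hs p hdvd
    have := hp.natDegree_pos
    omega
  obtain ⟨t, ht⟩ : ∃ t, p.eval t = 0 := by
    have h3 : p.degree = 1 := by
      rw [Polynomial.degree_eq_natDegree hp.ne_zero, h2]
      rfl
    exact Polynomial.exists_root_of_degree_eq_one h3
  have h4 : X - C t ∣ p := Polynomial.dvd_iff_isRoot.2 ht
  obtain ⟨Q, hQ⟩ := (pow_dvd_pow_of_dvd h4 m).trans hdvd
  have hQ0 : Q ≠ 0 := by
    rintro rfl
    rw [mul_zero] at hQ
    exact hH hQ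
  have hdeg : H.natDegree = m + Q.natDegree := by
    rw [hQ, natDegree_mul (pow_ne_zero _ (X_sub_C_ne_zero t)) hQ0, natDegree_pow,
      natDegree_X_sub_C, mul_one]
  refine ⟨by omega, t, Q, hQ0, by omega, hQ, fun p' hp' hdvd' => ?_⟩
  have h5 : ((X - C t) * p') ^ m ∣ H := by
    rw [mul_pow, hQ]
    exact mul_dvd_mul_left _ hdvd'
  have h6 := hs _ h5
  rw [natDegree_mul (X_sub_C_ne_zero t) hp'.ne_zero, natDegree_X_sub_C] at h6
  have := hp'.natDegree_pos
  omega

section

variable {k L : Type} [Field k] [IsAlgClosed k] [CharZero k] [Field L] [Algebra k L] [IsFF k L]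

theorem fin_freeS' {m d r : ℕ} (hm : 2 ≤ m)
    {y : Fin (r + 1) → L} (hy : Function.Injective y) (Cn : Finset (Fin (r + 1)))
    (hC : 4 * d < Cn.card) (hCc : ∀ j ∈ Cn, ∃ c : k, y j = algebraMap k L c)
    (S : Finset (Fin (r + 1))) (hS : d ≤ S.card) (hSm : ∀ j ∈ S, ∀ c : k, y j ≠ algebraMap k L c)
    (j0 : Fin (r + 1)) : (VSet m d y j0).Finite := by
  classical
  choose! c hc using hCc
  refine fin_freeS (k := k) (q := Cn.card) hm hC hy
    (x := fun i => c ((Cn.equivFin.symm i : Cn) : Fin (r + 1))) ?_ (fun i => ⟨_, hc _ (Cn.equivFin.symm i).2⟩)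
    ⟨S, hS, hSm⟩ j0
  intro i j hij
  have h1 := hc _ (Cn.equivFin.symm i).2
  have h2 := hc _ (Cn.equivFin.symm j).2
  simp only at hij
  rw [hij, ← h2] at h1
  exact Cn.equivFin.symm.injective (Subtype.ext (hy h1))

/-- the vectors with a vanishing coordinate -/
theorem fin_nodeS {m n r : ℕ} (hm : 2 ≤ m)
    {a : Fin (r + 2) → L} (ha : Function.Injective a) (Cn : Finset (Fin (r + 2)))
    (hC : 4 * n < Cn.card) (hCc : ∀ j ∈ Cn, ∃ c : k, a j = algebraMap k L c)
    (S : Finset (Fin (r + 2))) (hS : n ≤ S.card) (hSm : ∀ j ∈ S, ∀ c : k, a j ≠ algebraMap k L c)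
    (j0 i0 : Fin (r + 2)) (hmn : m ≤ n) :
    {y : Fin (r + 2) → L | y j0 = 1 ∧ ∃ Q : L[X], Q ≠ 0 ∧ Q.natDegree ≤ n - m ∧
      (∀ p : L[X], Irreducible p → ¬ p ^ m ∣ Q) ∧
      ∀ j, y j ^ m = (a j - a i0) ^ m * Q.eval (a j)}.Finite := by
  classical
  by_cases hji : j0 = i0
  · refine Set.Finite.subset Set.finite_empty ?_
    rintro y ⟨h1, Q, -, -, -, h2⟩
    have h3 := h2 j0
    rw [h1, hji, sub_self, zero_pow (by omega), one_pow, zero_mul] at h3
    exact one_ne_zero h3
  obtain ⟨j0', hj0'⟩ := Fin.exists_succAbove_eq hji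
  have hinj : Function.Injective fun j => a (i0.succAbove j) :=
    ha.comp Fin.succAbove_right_injective
  let C' : Finset (Fin (r + 1)) := Finset.univ.filter fun j => i0.succAbove j ∈ Cn
  let S' : Finset (Fin (r + 1)) := Finset.univ.filter fun j => i0.succAbove j ∈ S
  have hcard : ∀ A : Finset (Fin (r + 2)),
      A.card ≤ (Finset.univ.filter fun j : Fin (r + 1) => i0.succAbove j ∈ A).card + 1 := by
    intro A
    have h1 : A ⊆ insert i0 ((Finset.univ.filter fun j : Fin (r + 1) =>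
        i0.succAbove j ∈ A).image i0.succAbove) := by
      intro j hj
      by_cases h : j = i0
      · exact Finset.mem_insert.2 (Or.inl h)
      · obtain ⟨j', hj'⟩ := Fin.exists_succAbove_eq h
        refine Finset.mem_insert_of_mem (Finset.mem_image.2 ⟨j', ?_, hj'⟩)
        rw [Finset.mem_filter]
        exact ⟨Finset.mem_univ _, by rw [hj']; exact hj⟩
    refine (Finset.card_le_card h1).trans ((Finset.card_insert_le _ _).trans ?_)
    exact Nat.add_le_add_right Finset.card_image_le 1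
  have hC' : Cn.card ≤ C'.card + 1 := hcard Cn
  have hS' : S.card ≤ S'.card + 1 := hcard S
  have hfin := fin_freeS' (k := k) (m := m) (d := n - m) hm hinj C' (by omega)
    (fun j hj => hCc _ (Finset.mem_filter.1 hj).2) S' (by omega)
    (fun j hj => hSm _ (Finset.mem_filter.1 hj).2) j0'
  have hc0 : a j0 - a i0 ≠ 0 := sub_ne_zero.2 fun h => hji (ha h)
  refine (hfin.image fun z : Fin (r + 1) → L => (Fin.insertNth i0 (0 : L)
    fun j => z j * (a (i0.succAbove j) - a i0) / (a j0 - a i0) : Fin (r + 2) → L)).subset ?_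
  rintro y ⟨h1, Q, hQ0, hQd, hQf, h2⟩
  refine ⟨fun j => y (i0.succAbove j) * (a j0 - a i0) / (a (i0.succAbove j) - a i0), ?_, ?_⟩
  · have hne : ∀ j, a (i0.succAbove j) - a i0 ≠ 0 := fun j =>
      sub_ne_zero.2 fun h => Fin.succAbove_ne i0 j (ha h)
    refine ⟨?_, C ((a j0 - a i0) ^ m) * Q, ?_, free_mul_C (pow_ne_zero _ hc0) hQf, ?_⟩
    · simp only
      rw [hj0', h1, one_mul, div_self hc0]
    · exact (natDegree_C_mul_le _ _).trans hQd
    · intro j
      simp only
      rw [div_pow, mul_pow, h2, eval_mul, eval_C]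
      have := pow_ne_zero m (hne j)
      field_simp
  · simp only
    have hy0 : y i0 = 0 := by
      have h3 := h2 i0
      rw [sub_self, zero_pow (by omega), zero_mul] at h3
      exact pow_eq_zero_iff (by omega) |>.1 h3
    funext i
    by_cases hi : i = i0
    · rw [hi, Fin.insertNth_apply_same, hy0]
    · obtain ⟨j, rfl⟩ := Fin.exists_succAbove_eq hi
      rw [Fin.insertNth_apply_succAbove]
      have hne : a (i0.succAbove j) - a i0 ≠ 0 :=
        sub_ne_zero.2 fun h => Fin.succAbove_ne i0 j (ha h)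
      field_simp

variable {K : Type} [Field K] [Algebra L K]

/-- all the points over `L` are in a finite set or on finitely many lines -/
theorem cand {m n r : ℕ} (hm : 2 ≤ m) {a : Fin (r + 2) → L}
    (ha : Function.Injective a) (Cn : Finset (Fin (r + 2)))
    (hC : 4 * n < Cn.card) (hCc : ∀ j ∈ Cn, ∃ c : k, a j = algebraMap k L c)
    (S : Finset (Fin (r + 2))) (hS : n ≤ S.card) (hSm : ∀ j ∈ S, ∀ c : k, a j ≠ algebraMap k L c)
    (j0 : Fin (r + 2)) :
    ∃ A Z : Set (Fin (r + 2) → L), A.Finite ∧ Z.Finite ∧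
      (∀ z ∈ Z, z j0 = 1 ∧ ∃ i, i ≠ j0 ∧ z i ≠ 0) ∧
      ∀ y : Fin (r + 2) → L, y j0 = 1 →
        (∃ H : K[X], H.natDegree ≤ n ∧
          (∀ j, H.eval (algebraMap L K (a j)) = algebraMap L K (y j) ^ m) ∧ Simple m H) →
        y ∈ A ∨ ∃ z ∈ Z, ∃ t : L, (∀ i, a i - t ≠ 0) ∧
          ∀ i, y i = z i * (a i - t) / (a j0 - t) := by
  classical
  have hcard : Cn.card ≤ r + 2 := by
    have := Finset.card_le_univ Cn
    rwa [Fintype.card_fin] at this
  have hV := fin_freeS' (k := k) hm ha Cn hC hCc S hS hSm j0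
  refine ⟨VSet m n a j0 ∪ (⋃ i0 : Fin (r + 2), {y : Fin (r + 2) → L | m ≤ n ∧
      y j0 = 1 ∧ ∃ Q : L[X], Q ≠ 0 ∧ Q.natDegree ≤ n - m ∧
      (∀ p : L[X], Irreducible p → ¬ p ^ m ∣ Q) ∧
      ∀ j, y j ^ m = (a j - a i0) ^ m * Q.eval (a j)}), VSet m n a j0,
    hV.union (Set.finite_iUnion fun i0 => ?_), hV, fun z hz => ⟨hz.1, ?_⟩, ?_⟩
  · by_cases hmn : m ≤ n
    · refine (fin_nodeS (k := k) hm ha Cn hC hCc S hS hSm j0 i0 hmn).subset ?_
      rintro y ⟨-, h⟩
      exact h
    · refine Set.Finite.subset Set.finite_empty ?_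
      rintro y ⟨h, -⟩
      exact absurd h hmn
  · obtain ⟨h1, H, hHd, -, hH⟩ := hz
    by_contra hcon
    push Not at hcon
    have hH0 : H ≠ 0 := by
      rintro rfl
      have h3 := hH j0
      rw [h1, one_pow, eval_zero] at h3
      exact one_ne_zero h3
    apply hH0
    refine Polynomial.eq_zero_of_natDegree_lt_card_of_eval_eq_zero' _
      ((Finset.univ.erase j0).image a) ?_ ?_
    · intro x hx
      obtain ⟨i, hi, rfl⟩ := Finset.mem_image.1 hx
      rw [← hH, hcon i (Finset.ne_of_mem_erase hi), zero_pow (by omega)]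
    · rw [Finset.card_image_of_injective _ ha, Finset.card_erase_of_mem (Finset.mem_univ _),
        Finset.card_univ, Fintype.card_fin]
      omega
  rintro y hy1 ⟨HK, hHKd, hHK, hHKs⟩
  obtain ⟨H, hHd, hH, hHs⟩ :=
    exists_smallS (m := m) (by omega : n ≤ r + 1) ha hHKd hHK hHKs
  have hH0 : H ≠ 0 := by
    rintro rfl
    have h1 := hH j0
    rw [hy1, one_pow, eval_zero] at h1
    exact one_ne_zero h1
  by_cases hfree : ∀ p : L[X], Irreducible p → ¬ p ^ m ∣ H
  · exact Or.inl (Or.inl ⟨hy1, H, hHd, hfree, hH⟩)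
  obtain ⟨hmn, t, Q, hQ0, hQd, hHQ, hQf⟩ := exists_root_powS hH0 hHd hHs hfree
  have hyQ : ∀ j, y j ^ m = (a j - t) ^ m * Q.eval (a j) := by
    intro j
    rw [hH j, hHQ, eval_mul, eval_pow, eval_sub, eval_X, eval_C]
  by_cases hnode : ∃ i0, t = a i0
  · obtain ⟨i0, rfl⟩ := hnode
    refine Or.inl (Or.inr ?_)
    rw [Set.mem_iUnion]
    exact ⟨i0, hmn, hy1, Q, hQ0, hQd, hQf, hyQ⟩
  push Not at hnode
  have hne : ∀ i, a i - t ≠ 0 := fun i => sub_ne_zero.2 (Ne.symm (hnode i))
  let z : Fin (r + 2) → L := fun i => y i * (a j0 - t) / (a i - t)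
  have hz1 : z j0 = 1 := by
    simp only [z]
    rw [hy1, one_mul, div_self (hne j0)]
  have hzQ : ∀ i, z i ^ m = (C ((a j0 - t) ^ m) * Q).eval (a i) := by
    intro i
    simp only [z]
    rw [div_pow, mul_pow, hyQ, eval_mul, eval_C]
    have := pow_ne_zero m (hne i)
    field_simp
  have hQ'd : (C ((a j0 - t) ^ m) * Q).natDegree ≤ n - m := (natDegree_C_mul_le _ _).trans hQd
  have hzV : z ∈ VSet m n a j0 :=
    ⟨hz1, _, hQ'd.trans (by omega), free_mul_C (pow_ne_zero _ (hne j0)) hQf, hzQ⟩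
  refine Or.inr ⟨z, hzV, t, hne, fun i => ?_⟩
  simp only [z]
  have h1 := hne i
  have h2 := hne j0
  field_simp

/-- the points at which three coordinates have ratios in a set in which the unit equation has only
finitely many solutions -/
theorem fin_three {m n r : ℕ} (hm : 2 ≤ m) {a : Fin (r + 2) → L}
    (ha : Function.Injective a) (Cn : Finset (Fin (r + 2)))
    (hC : 4 * n < Cn.card) (hCc : ∀ j ∈ Cn, ∃ c : k, a j = algebraMap k L c)
    (S : Finset (Fin (r + 2))) (hS : n ≤ S.card) (hSm : ∀ j ∈ S, ∀ c : k, a j ≠ algebraMap k L c)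
    {j0 j1 j2 : Fin (r + 2)} (h01 : j0 ≠ j1) (h02 : j0 ≠ j2) (h12 : j1 ≠ j2)
    {Γ : Set K} (h0 : (0 : K) ∉ Γ)
    (hΓ : ∀ α β : K, α ≠ 0 → β ≠ 0 → {u : K | u ∈ Γ ∧ ∃ v ∈ Γ, α * u + β * v = 1}.Finite) :
    {y : Fin (r + 2) → L | y j0 = 1 ∧ (∃ H : K[X], H.natDegree ≤ n ∧
      (∀ j, H.eval (algebraMap L K (a j)) = algebraMap L K (y j) ^ m) ∧ Simple m H) ∧
      algebraMap L K (y j1) ∈ Γ ∧ algebraMap L K (y j2) ∈ Γ}.Finite := by
  classical
  obtain ⟨A, Z, hA, hZ, hZ1, hAZ⟩ := cand (k := k) (K := K) hm ha Cn hC hCc S hS hSm j0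
  have hfin : ∀ z ∈ Z, {y : Fin (r + 2) → L | (∃ t : L, (∀ i, a i - t ≠ 0) ∧
      ∀ i, y i = z i * (a i - t) / (a j0 - t)) ∧ algebraMap L K (y j1) ∈ Γ ∧
      algebraMap L K (y j2) ∈ Γ}.Finite := by
    intro z hz
    by_cases hz1 : z j1 = 0
    · refine Set.Finite.subset Set.finite_empty ?_
      rintro y ⟨⟨t, -, hy⟩, h1, -⟩
      rw [hy j1, hz1, zero_mul, zero_div, map_zero] at h1
      exact absurd h1 h0
    by_cases hz2 : z j2 = 0
    · refine Set.Finite.subset Set.finite_empty ?_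
      rintro y ⟨⟨t, -, hy⟩, -, h2⟩
      rw [hy j2, hz2, zero_mul, zero_div, map_zero] at h2
      exact absurd h2 h0
    have e10 : a j1 - a j0 ≠ 0 := sub_ne_zero.2 fun h => h01 (ha h).symm
    have e20 : a j2 - a j0 ≠ 0 := sub_ne_zero.2 fun h => h02 (ha h).symm
    have e21 : a j2 - a j1 ≠ 0 := sub_ne_zero.2 fun h => h12 (ha h).symm
    set α : L := (a j2 - a j0) / ((a j2 - a j1) * z j1) with hα
    set β : L := -(a j1 - a j0) / ((a j2 - a j1) * z j2) with hβ
    have hα0 : algebraMap L K α ≠ 0 := by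
      rw [Ne, map_eq_zero]
      exact div_ne_zero e20 (mul_ne_zero e21 hz1)
    have hβ0 : algebraMap L K β ≠ 0 := by
      rw [Ne, map_eq_zero]
      exact div_ne_zero (neg_ne_zero.2 e10) (mul_ne_zero e21 hz2)
    refine Set.Finite.of_finite_image (f := fun y : Fin (r + 2) → L => algebraMap L K (y j1))
      ((hΓ _ _ hα0 hβ0).subset ?_) ?_
    · rintro _ ⟨y, ⟨⟨t, ht, hy⟩, h1, h2⟩, rfl⟩
      refine ⟨h1, _, h2, ?_⟩
      rw [← map_mul, ← map_mul, ← map_add, ← map_one (algebraMap L K)]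
      congr 1
      rw [hy j1, hy j2, hα, hβ]
      have := ht j0
      field_simp
      ring
    · rintro y ⟨⟨t, ht, hy⟩, -, -⟩ y' ⟨⟨t', ht', hy'⟩, -, -⟩ h
      have h' : y j1 = y' j1 := (algebraMap L K).injective h
      rw [hy j1, hy' j1] at h'
      have htt : t = t' := by
        have h3 := ht j0
        have h4 := ht' j0
        rw [div_eq_div_iff h3 h4] at h'
        have h5 : z j1 * (a j1 - a j0) * (t - t') = 0 := by linear_combination h'
        exact sub_eq_zero.1 ((mul_eq_zero.1 h5).resolve_left (mul_ne_zero hz1 e10))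
      subst htt
      funext i
      rw [hy i, hy' i]
  refine (hA.union (hZ.biUnion hfin)).subset ?_
  rintro y ⟨hy1, hH, h1, h2⟩
  rcases hAZ y hy1 hH with h | ⟨z, hz, t, ht, hy⟩
  · exact Or.inl h
  · refine Or.inr ?_
    rw [Set.mem_iUnion₂]
    exact ⟨z, hz, ⟨t, ht, hy⟩, h1, h2⟩

/-- **Finiteness of the points that are not on lines.** -/
theorem fin_offS {m n r : ℕ} (hm : 2 ≤ m) {a : Fin (r + 2) → L}
    (ha : Function.Injective a) (Cn : Finset (Fin (r + 2)))
    (hC : 4 * n < Cn.card) (hCc : ∀ j ∈ Cn, ∃ c : k, a j = algebraMap k L c)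
    (S : Finset (Fin (r + 2))) (hS : n ≤ S.card) (hSm : ∀ j ∈ S, ∀ c : k, a j ≠ algebraMap k L c)
    {ι : Type} {F : ι → MvPolynomial (Fin (r + 2)) K} (hF : ∀ e, IsForm (F e))
    (j0 : Fin (r + 2)) :
    {y : Fin (r + 2) → L | y j0 = 1 ∧ (∃ H : K[X], H.natDegree ≤ n ∧
      (∀ j, H.eval (algebraMap L K (a j)) = algebraMap L K (y j) ^ m) ∧ Simple m H) ∧
      (fun i => algebraMap L K (y i)) ∈ Cone F ∧
      ¬ OnLine F (fun i => algebraMap L K (y i))}.Finite := by
  classical
  have hcz : CharZero L := charZero_of_injective_algebraMap (algebraMap k L).injective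
  have hcK : CharZero K := charZero_of_injective_algebraMap (algebraMap L K).injective
  obtain ⟨A, Z, hA, hZ, hZ1, hAZ⟩ := cand (k := k) (K := K) hm ha Cn hC hCc S hS hSm j0
  let T : (Fin (r + 2) → L) → Set L := fun z => {t | t ≠ a j0 ∧
    (fun i => algebraMap L K (z i * (a i - t) / (a j0 - t))) ∈ Cone F ∧
      ¬ OnLine F fun i => algebraMap L K (z i * (a i - t) / (a j0 - t))}
  have hT : ∀ z ∈ Z, (T z).Finite := by
    intro z hzZ
    by_contra hinf
    have hinf' : (T z).Infinite := hinf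
    obtain ⟨hz, i, hij, hi⟩ := hZ1 z hzZ
    have hline : Line F (fun i => algebraMap L K (a i) * algebraMap L K (z i))
        (fun i => algebraMap L K (z i)) := by
      refine line_of_infinite (A := algebraMap L K '' T z) hF ((algebraMap L K).injective.comp ha)
        (i := i) (j := j0) hij ?_ ?_ (hinf'.image (algebraMap L K).injective.injOn) ?_
      · exact (_root_.map_ne_zero _).2 hi
      · rw [hz, map_one]; exact one_ne_zero
      · rintro _ ⟨t, ht, rfl⟩ e
        obtain ⟨htj, hcone, -⟩ := ht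
        obtain ⟨d, hd⟩ := hF e
        have h1 : val (fun i => algebraMap L K (z i * (a i - t) / (a j0 - t))) (F e) = 0 :=
          hcone.2 e
        have h2 := Pool.Agent.H159R3.Lang.aeval_smul_homog hd (algebraMap L K (a j0 - t))
          (fun i => algebraMap L K (z i * (a i - t) / (a j0 - t)))
        have h3 : (fun i => (algebraMap L K (a i) - algebraMap L K t) * algebraMap L K (z i)) =
            (algebraMap L K (a j0 - t)) •
              fun i => algebraMap L K (z i * (a i - t) / (a j0 - t)) := by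
          funext i
          rw [Pi.smul_apply, smul_eq_mul, ← map_mul, ← map_sub, ← map_mul]
          congr 1
          have : a j0 - t ≠ 0 := sub_ne_zero.2 (Ne.symm htj)
          field_simp
        unfold val at h1 ⊢
        rw [h1, mul_zero, ← h3] at h2
        exact h2
    obtain ⟨t, ht⟩ := hinf'.nonempty
    obtain ⟨htj, -, hoff⟩ := ht
    apply hoff
    refine ⟨_, _, hline, algebraMap L K (1 / (a j0 - t)), algebraMap L K (- t / (a j0 - t)), ?_⟩
    funext i
    simp only [Pi.add_apply, Pi.smul_apply, smul_eq_mul]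
    rw [← map_mul, ← map_mul, ← map_mul, ← map_add]
    congr 1
    have : a j0 - t ≠ 0 := sub_ne_zero.2 (Ne.symm htj)
    field_simp
    ring
  refine (hA.union (hZ.biUnion fun z hz =>
    (hT z hz).image (fun t => fun i => z i * (a i - t) / (a j0 - t)))).subset ?_
  rintro y ⟨hy1, hH, hycone, hyoff⟩
  rcases hAZ y hy1 hH with h | ⟨z, hz, t, ht, hy⟩
  · exact Or.inl h
  · refine Or.inr ?_
    rw [Set.mem_iUnion₂]
    have hyz : (fun i => z i * (a i - t) / (a j0 - t)) = y := (funext hy).symm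
    refine ⟨z, hz, t, ⟨fun h => ht j0 (sub_eq_zero.2 h.symm), ?_, ?_⟩, hyz⟩
    · have h1 := congrArg (fun f : Fin (r + 2) → L => fun i => algebraMap L K (f i)) hyz
      exact h1.symm ▸ hycone
    · have h1 := congrArg (fun f : Fin (r + 2) → L => fun i => algebraMap L K (f i)) hyz
      exact h1.symm ▸ hyoff

end

end Pool.Agent.U463.PV
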