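import Pool.Agent.W602.GT.PsDefs

/-!
Definitions: integral points on the complements of coordinate hyperplanes in projective varieties.
-/

set_option autoImplicit false

open FF Pool.Agent.W602.GT
open LinearAlgebra.Projectivization

namespace Pool.Agent.U463.PV

variable {K : Type} [Field K] {N : ℕ} {ι : Type}

/-- All the closed subvarieties of positive dimension of the quasi-projective variety
`X = {F = 0, x_j ≠ 0 for all j in U}` are of log general type. -/
def AllLogGeneralType (U : Set (Fin (N + 1))) (F : ι → MvPolynomial (Fin (N + 1)) K) : Prop :=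
  ∀ (L : Type) [Field L] [Algebra K L] (w : ℕ) (y : Fin (N + 1) → L), 1 ≤ w →
    SubVarU U F L w y → LogGeneralType K L w (OffU U y)

/-- The points of `X = {F = 0, x_j ≠ 0 for all j in U}` with homogeneous coordinates in the ring `A`
generated by the finite set `T` which generate the unit ideal of `A`, and such that the `x_j`, `j`
in `U`, are units of `A`: the `A`-valued points of `X`. -/
def IntPts (U : Set (Fin (N + 1))) (F : ι → MvPolynomial (Fin (N + 1)) K) (T : Finset K) :
    Set (ℙ K (Fin (N + 1) → K)) :=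
  {p | ∃ x ∈ ConeU U F, (∀ i, x i ∈ Subring.closure (T : Set K)) ∧
    (∃ c : Fin (N + 1) → K, (∀ i, c i ∈ Subring.closure (T : Set K)) ∧ ∑ i, c i * x i = 1) ∧
    (∀ j ∈ U, (x j)⁻¹ ∈ Subring.closure (T : Set K)) ∧
    ∃ hx : x ≠ 0, p = Projectivization.mk K x hx}

/-- The points of `X = {F = 0, x_j ≠ 0 for all j in U}` with homogeneous coordinates in the field
generated by `T` over `k0` for which the quotients of the coordinates `x_j`, `j` in `U`, are in the
group `Γ`. -/
def UnitPts (U : Set (Fin (N + 1))) (F : ι → MvPolynomial (Fin (N + 1)) K) (k0 : Subfield K)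
    (T : Finset K) (Γ : Subgroup Kˣ) : Set (ℙ K (Fin (N + 1) → K)) :=
  {p | ∃ x ∈ ConeU U F, (∀ i, x i ∈ Subfield.closure ((k0 : Set K) ∪ (T : Set K))) ∧
    (∀ j ∈ U, ∀ j' ∈ U, ∃ u ∈ Γ, x j = (u : K) * x j') ∧
    ∃ hx : x ≠ 0, p = Projectivization.mk K x hx}

end Pool.Agent.U463.PV
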