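import Pool.Agent.K1H41.PA.Uli
import Pool.Agent.K1H33.PA.UliQ
import Pool.Agent.N455.FG.RQ3
import Pool.Agent.N49.FG.RQ1

/-!
The unit equation in two unknowns in finitely generated groups, and the units of a finitely
generated ring.
-/

set_option autoImplicit false

open Filter

namespace Pool.Agent.U463.PV

open Pool.Agent.K1H77.PA

variable {K : Type} [Field K] [CharZero K]

theorem unit_two (Γ : Subgroup Kˣ) (hΓ : Γ.FG) {α β : K} (hα : α ≠ 0) (_hβ : β ≠ 0) :
    {u : Kˣ | u ∈ Γ ∧ ∃ v ∈ Γ, α * u + β * v = 1}.Finite := by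
  classical
  by_contra hinf
  have hinf : {u : Kˣ | u ∈ Γ ∧ ∃ v ∈ Γ, α * (u : K) + β * v = 1}.Infinite := hinf
  have hU : ULI K := Pool.Agent.K1H41.PA.t_ULI Pool.Agent.K1H33.PA.t_ULI_Q K
  let e : ℕ → Kˣ := fun n => (hinf.natEmbedding _ n : Kˣ)
  have hinj : Function.Injective e := fun s t h => (hinf.natEmbedding _).injective (Subtype.ext h)
  have he : ∀ n, e n ∈ Γ ∧ ∃ v ∈ Γ, α * (e n : K) + β * v = 1 :=
    fun n => (hinf.natEmbedding _ n).2
  choose he1 v hv hev using he
  have hne : ∀ c : K, ¬ ∀ᶠ n in (hyperfilter ℕ : Filter ℕ), (e n : K) = c := by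
    intro c hc
    have h1 : {n : ℕ | (e n : K) = c}.Finite := by
      refine Set.Subsingleton.finite ?_
      intro s hs t ht
      exact hinj (Units.ext (hs.trans ht.symm))
    have h2 : {n : ℕ | (e n : K) = c}ᶜ ∈ (hyperfilter ℕ : Filter ℕ) :=
      compl_mem_hyperfilter_of_finite h1
    have h3 := inter_mem hc h2
    rw [show {x | (fun n => (e n : K) = c) x} ∩ {n : ℕ | (e n : K) = c}ᶜ = ∅ from
      Set.inter_compl_self _] at h3
    exact empty_notMem _ h3
  have hne' : ∀ c : K, ¬ ∀ᶠ n in (hyperfilter ℕ : Filter ℕ), (v n : K) = c := by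
    intro c hc
    refine hne ((1 - β * c) / α) (hc.mono fun n hn => ?_)
    rw [eq_div_iff hα, ← hn]
    linear_combination hev n
  have h := hU Γ hΓ (hyperfilter ℕ) 3 ![fun _ => 1, e, v] (by
    intro i n
    fin_cases i
    · exact one_mem Γ
    · exact he1 n
    · exact hv n) (by
    intro i j hij c hc
    fin_cases i <;> fin_cases j
    · exact hij rfl
    · -- `1 = c * e n`
      refine hne c⁻¹ (hc.mono fun n hn => ?_)
      have hn : ((1 : Kˣ) : K) = c * (e n : K) := hn
      rw [Units.val_one] at hn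
      have hc0 : c ≠ 0 := by
        rintro rfl
        rw [zero_mul] at hn
        exact one_ne_zero hn
      field_simp
      linear_combination -hn
    · refine hne' c⁻¹ (hc.mono fun n hn => ?_)
      have hn : ((1 : Kˣ) : K) = c * (v n : K) := hn
      rw [Units.val_one] at hn
      have hc0 : c ≠ 0 := by
        rintro rfl
        rw [zero_mul] at hn
        exact one_ne_zero hn
      field_simp
      linear_combination -hn
    · refine hne c (hc.mono fun n hn => ?_)
      have hn : (e n : K) = c * ((1 : Kˣ) : K) := hn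
      rw [Units.val_one] at hn
      rw [hn, mul_one]
    · exact hij rfl
    · -- `e n = c * v n`
      refine hne' (α * c + β)⁻¹ (hc.mono fun n hn => ?_)
      have hn : (e n : K) = c * (v n : K) := hn
      have h1 := hev n
      rw [hn] at h1
      have h2 : (α * c + β) * (v n : K) = 1 := by linear_combination h1
      exact eq_inv_of_mul_eq_one_right h2
    · refine hne' c (hc.mono fun n hn => ?_)
      have hn : (v n : K) = c * ((1 : Kˣ) : K) := hn
      rw [Units.val_one] at hn
      rw [hn, mul_one]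
    · refine hne (α + β * c)⁻¹ (hc.mono fun n hn => ?_)
      have hn : (v n : K) = c * (e n : K) := hn
      have h1 := hev n
      rw [hn] at h1
      have h2 : (α + β * c) * (e n : K) = 1 := by linear_combination h1
      exact eq_inv_of_mul_eq_one_right h2
    · exact hij rfl) ![-1, α, β] (Eventually.of_forall fun n => by
      rw [Fin.sum_univ_three]
      simp only [Matrix.cons_val_zero, Matrix.cons_val_one, Matrix.cons_val]
      rw [Units.val_one]
      linear_combination hev n)
  have h0 := congrFun h 1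
  simp only [Matrix.cons_val_one, Matrix.cons_val_zero, Pi.zero_apply] at h0
  exact hα h0

theorem units_fg_aux (T : Finset K) (R : Subalgebra ℤ K) (hRT : R = Algebra.adjoin ℤ (T : Set K))
    (M : Type) [Field M] [Algebra R M] [IsFractionRing R M] : ∃ Γ : Subgroup Kˣ, Γ.FG ∧
    ∀ u : Kˣ, (u : K) ∈ R → ((u⁻¹ : Kˣ) : K) ∈ R → u ∈ Γ := by
  classical
  have hft : Algebra.FiniteType ℤ R :=
    (Subalgebra.fg_iff_finiteType R).1 (by rw [hRT]; exact Subalgebra.fg_adjoin_finset T)
  have hinj0 : Function.Injective (algebraMap R K) := Subtype.val_injective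
  have hcz : CharZero R := by
    constructor
    intro i j hij
    have h1 := congrArg (algebraMap R K) hij
    rw [map_natCast, map_natCast] at h1
    exact Nat.cast_injective h1
  let φ : M →+* K := IsFractionRing.lift (A := R) (K := M) hinj0
  have hφ : ∀ x : R, φ (algebraMap R M x) = (x : K) := fun x => IsFractionRing.lift_algebraMap _ x
  let s : Set M := algebraMap R M '' {x : R | (x : K) ∈ T}
  have hs : s.Finite := by
    refine Set.Finite.image _ ?_
    exact T.finite_toSet.preimage Subtype.val_injective.injOn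
  have hFG : (Pool.Agent.N754.FG.IU s).FG :=
    Pool.Agent.N455.FG.rq3 Pool.Agent.N49.FG.rq1 R M s hs
  have hmem : ∀ r : R, algebraMap R M r ∈ Algebra.adjoin ℤ s := by
    subst hRT
    rintro ⟨x, hx⟩
    refine Algebra.adjoin_induction (p := fun y hy =>
      algebraMap (Algebra.adjoin ℤ (T : Set K)) M ⟨y, hy⟩ ∈ Algebra.adjoin ℤ s) ?_ ?_ ?_ ?_ hx
    · intro y hy
      exact Algebra.subset_adjoin ⟨_, hy, rfl⟩
    · intro z
      have h1 : algebraMap (Algebra.adjoin ℤ (T : Set K)) M ⟨algebraMap ℤ K z,
          (Algebra.adjoin ℤ (T : Set K)).algebraMap_mem z⟩ = (z : M) := by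
        have h2 : (⟨algebraMap ℤ K z, (Algebra.adjoin ℤ (T : Set K)).algebraMap_mem z⟩ :
            Algebra.adjoin ℤ (T : Set K)) = (z : Algebra.adjoin ℤ (T : Set K)) := by
          apply Subtype.ext
          simp
        rw [h2, map_intCast]
      rw [h1]
      exact intCast_mem _ z
    · intro y z hy hz h1 h2
      have h3 := add_mem h1 h2
      rwa [← map_add] at h3
    · intro y z hy hz h1 h2
      have h3 := mul_mem h1 h2
      rwa [← map_mul] at h3
  have hint : ∀ r : R, IsIntegral (Algebra.adjoin ℤ s) (algebraMap R M r) := fun r =>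
    isIntegral_algebraMap (R := Algebra.adjoin ℤ s) (A := M) (x := ⟨_, hmem r⟩)
  refine ⟨(Pool.Agent.N754.FG.IU s).map (Units.map (φ : M →* K)), ?_, ?_⟩
  · obtain ⟨S, hS⟩ := hFG
    exact ⟨S.image (Units.map (φ : M →* K)), by
      rw [Finset.coe_image, ← hS, MonoidHom.map_closure]⟩
  intro u hu hu'
  let w : Mˣ :=
    { val := algebraMap R M ⟨u, hu⟩
      inv := algebraMap R M ⟨((u⁻¹ : Kˣ) : K), hu'⟩
      val_inv := by
        rw [← map_mul, ← map_one (algebraMap R M)]
        congr 1
        apply Subtype.ext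
        exact u.mul_inv
      inv_val := by
        rw [← map_mul, ← map_one (algebraMap R M)]
        congr 1
        apply Subtype.ext
        exact u.inv_mul }
  refine ⟨w, ⟨hint _, hint _⟩, Units.ext ?_⟩
  exact hφ _

/-- the units of a finitely generated subring -/
theorem units_fg (T : Finset K) : ∃ Γ : Subgroup Kˣ, Γ.FG ∧ ∀ u : Kˣ,
    (u : K) ∈ Subring.closure (T : Set K) → ((u⁻¹ : Kˣ) : K) ∈ Subring.closure (T : Set K) →
      u ∈ Γ := by
  obtain ⟨Γ, h1, h2⟩ := units_fg_aux T _ rfl (FractionRing (Algebra.adjoin ℤ (T : Set K)))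
  have hR : ∀ x : K, x ∈ Subring.closure (T : Set K) → x ∈ Algebra.adjoin ℤ (T : Set K) := by
    intro x hx
    have h1 : Subring.closure (T : Set K) ≤ (Algebra.adjoin ℤ (T : Set K)).toSubring := by
      rw [Subring.closure_le]
      exact Algebra.subset_adjoin
    exact h1 hx
  exact ⟨Γ, h1, fun u hu hu' => h2 u (hR _ hu) (hR _ hu')⟩

end Pool.Agent.U463.PV
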