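import Pool.Agent.U463.PV.Cand
import Pool.Agent.U463.PV.UE
import Pool.Agent.U463.PV.Defs
import Pool.Agent.Y190.GN.Main

/-!
Rational points and integral points over finitely generated fields and rings.
-/

set_option autoImplicit false

open FF Pool.Agent.W603.LV Pool.Agent.W602.GT Pool.Agent.Y190.BV Pool.Agent.TH145.MF
  Pool.Agent.Y190.GN
open LinearAlgebra.Projectivization
open Pool.Agent.Y190.SN (Simple)

namespace Pool.Agent.U463.PV

/-- the `m`-th powers of the coordinates are the values at the nodes of a polynomial which is not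
divisible by the `m`-th power of a polynomial of degree at least two -/
def SimplePt {K : Type} [Field K] {N : ℕ} (a : Fin (N + 1) → K) (n m : ℕ)
    (x : Fin (N + 1) → K) : Prop :=
  ∃ H : Polynomial K, H.natDegree ≤ n ∧ (∀ i, x i ^ m = H.eval (a i)) ∧ Simple m H

/-- The simple points of `{F = 0}` that are not on lines contained in `{F = 0}`, with coordinates in
the field generated by `T` over `k0`. -/
def OffSim {K : Type} [Field K] {N : ℕ} {ι : Type} (a : Fin (N + 1) → K) (n m : ℕ)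
    (F : ι → MvPolynomial (Fin (N + 1)) K) (k0 : Subfield K) (T : Finset K) :
    Set (ℙ K (Fin (N + 1) → K)) :=
  {p | ∃ x ∈ Cone F, SimplePt a n m x ∧ ¬ OnLine F x ∧
    (∀ i, x i ∈ Subfield.closure ((k0 : Set K) ∪ (T : Set K))) ∧
    ∃ hx : x ≠ 0, p = Projectivization.mk K x hx}

section

variable {K : Type} [Field K] {N : ℕ} {ι : Type}

theorem SimplePt.smul {a : Fin (N + 1) → K} {n m : ℕ} {x : Fin (N + 1) → K}
    (h : SimplePt a n m x) {c : K} (hc : c ≠ 0) : SimplePt a n m (c • x) := by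
  obtain ⟨H, h1, h2, h3⟩ := h
  refine ⟨Polynomial.C (c ^ m) * H, (Polynomial.natDegree_C_mul_le _ _).trans h1, fun i => ?_,
    h3.mul_C (pow_ne_zero m hc)⟩
  rw [Polynomial.eval_mul, Polynomial.eval_C, ← h2, Pi.smul_apply, smul_eq_mul, mul_pow]

end

section

variable {K : Type} [Field K] [IsAlgClosed K] [CharZero K] {N n m : ℕ} {ι : Type}

/-- **Finiteness over finitely generated fields.** -/
theorem off_finiteS (hm : 2 ≤ m) (hn : 1 ≤ n)
    {a : Fin (N + 1) → K} (ha : Function.Injective a) {k0 : Subfield K} (hk : Moving k0 a n)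
    {F : ι → MvPolynomial (Fin (N + 1)) K} (hF : ∀ e, IsForm (F e)) (T : Finset K) :
    (OffSim a n m F k0 T).Finite := by
  classical
  obtain ⟨s, Cn, S, hs, hC, hCc, hS, hSm⟩ := hk
  have hcard : Cn.card ≤ N + 1 := by
    have := Finset.card_le_univ Cn
    rwa [Fintype.card_fin] at this
  obtain ⟨r, rfl⟩ : ∃ r, N = r + 1 := ⟨N - 1, by omega⟩
  obtain ⟨k1, hk01, hac, hsk1, L, hL, hsL, hTL⟩ :=
    exists_ff k0 s hs (T ∪ Finset.univ.image a)
  have hcz : CharZero k1 := charZero_of_injective_algebraMap (algebraMap ℚ k1).injective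
  have haL : ∀ j, a j ∈ L := fun j => hTL _ (Finset.mem_union_right _
    (Finset.mem_image_of_mem _ (Finset.mem_univ _)))
  let a' : Fin (r + 2) → L := fun j => ⟨a j, haL j⟩
  have ha' : Function.Injective a' := fun i j hij => ha (congrArg Subtype.val hij)
  have hfin := fun j0 => fin_offS (k := k1) (L := L) (K := K) hm ha' Cn hC
    (fun j hj => ⟨⟨a j, hk01 (hCc j hj)⟩, rfl⟩) S hS
    (fun j hj c hc => moves hk01 hac hsk1 (hSm j hj) (by
      have h1 : a j = (c : K) := congrArg Subtype.val hc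
      rw [h1]
      exact c.2)) hF j0
  have hcl : ∀ x ∈ Subfield.closure ((k0 : Set K) ∪ (T : Set K)), x ∈ L := by
    intro x hx
    have h1 : Subfield.closure ((k0 : Set K) ∪ (T : Set K)) ≤ L.toSubfield := by
      rw [Subfield.closure_le]
      rintro t (ht | ht)
      · exact L.algebraMap_mem ⟨t, hk01 ht⟩
      · exact hTL t (Finset.mem_union_left _ ht)
    exact h1 hx
  let A : Fin (r + 2) → Set (Fin (r + 2) → L) := fun j0 =>
    {y : Fin (r + 2) → L | y j0 = 1 ∧ (∃ H : Polynomial K, H.natDegree ≤ n ∧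
      (∀ j, H.eval (algebraMap L K (a' j)) = algebraMap L K (y j) ^ m) ∧ Simple m H) ∧
      (fun i => algebraMap L K (y i)) ∈ Cone F ∧
      ¬ OnLine F (fun i => algebraMap L K (y i))}
  have hne : ∀ (j0 : Fin (r + 2)) (z : A j0), (fun i => algebraMap L K (z.1 i)) ≠ 0 :=
    fun j0 z => z.2.2.2.1.1
  let f : (j0 : Fin (r + 2)) → A j0 → ℙ K (Fin (r + 2) → K) :=
    fun j0 z => Projectivization.mk K _ (hne j0 z)
  have hun : (⋃ j0, Set.range (f j0)).Finite := by
    apply Set.finite_iUnion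
    intro j0
    have h1 : Finite (A j0) := hfin j0
    exact Set.finite_range _
  refine hun.subset ?_
  rintro p ⟨x, hxF, hxs, hoff, hxT, hx0, rfl⟩
  obtain ⟨j0, hj0⟩ := Function.ne_iff.1 hx0
  have hj0' : x j0 ≠ 0 := hj0
  have hxL : ∀ i, x i ∈ L := fun i => hcl _ (hxT i)
  let z : Fin (r + 2) → L := fun i => ⟨x i, hxL i⟩ / ⟨x j0, hxL j0⟩
  have hzc : (fun i => algebraMap L K (z i)) = (x j0)⁻¹ • x := by
    funext i
    change x i / x j0 = (x j0)⁻¹ * x i
    rw [div_eq_inv_mul]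
  have hzmem : z ∈ A j0 := by
    refine ⟨?_, ?_, ?_, ?_⟩
    · apply Subtype.ext
      change x j0 / x j0 = 1
      rw [div_self hj0']
    · obtain ⟨H, h1, h2, h3⟩ := hxs.smul (inv_ne_zero hj0')
      refine ⟨H, h1, fun j => ?_, h3⟩
      rw [← hzc] at h2
      exact (h2 j).symm
    · rw [hzc]
      refine ⟨smul_ne_zero (inv_ne_zero hj0') hx0, fun e => ?_⟩
      obtain ⟨d, hd⟩ := hF e
      have h1 := Pool.Agent.H159R3.Lang.aeval_smul_homog hd (x j0)⁻¹ x
      unfold val
      rw [h1]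
      have h2 := hxF.2 e
      unfold val at h2
      rw [h2, mul_zero]
    · rw [hzc]
      intro h
      have h1 := h.smul (x j0)
      rw [smul_smul, mul_inv_cancel₀ hj0', one_smul] at h1
      exact hoff h1
  rw [Set.mem_iUnion]
  refine ⟨j0, ⟨z, hzmem⟩, ?_⟩
  change Projectivization.mk K _ _ = Projectivization.mk K _ _
  rw [Projectivization.mk_eq_mk_iff']
  exact ⟨(x j0)⁻¹, hzc.symm⟩

/-- finiteness if there are three boundary hyperplanes -/
theorem three_finite (hm : 2 ≤ m) (hn : 1 ≤ n)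
    {a : Fin (N + 1) → K} (ha : Function.Injective a) {k0 : Subfield K} (hk : Moving k0 a n)
    {F : ι → MvPolynomial (Fin (N + 1)) K} {U : Set (Fin (N + 1))}
    (hcov : ∀ x ∈ ConeU U F, SimplePt a n m x)
    {jj : Fin 3 → Fin (N + 1)} (hjj : Function.Injective jj)
    (hjU : ∀ i, jj i ∈ U) (T : Finset K) (Γ : Subgroup Kˣ) (hΓ : Γ.FG) :
    (UnitPts U F k0 T Γ).Finite := by
  classical
  obtain ⟨s, Cn, S, hs, hC, hCc, hS, hSm⟩ := hk
  have hcard : Cn.card ≤ N + 1 := by
    have := Finset.card_le_univ Cn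
    rwa [Fintype.card_fin] at this
  obtain ⟨r, rfl⟩ : ∃ r, N = r + 1 := ⟨N - 1, by omega⟩
  obtain ⟨k1, hk01, hac, hsk1, L, hL, hsL, hTL⟩ :=
    exists_ff k0 s hs (T ∪ Finset.univ.image a)
  have hcz : CharZero k1 := charZero_of_injective_algebraMap (algebraMap ℚ k1).injective
  have haL : ∀ j, a j ∈ L := fun j => hTL _ (Finset.mem_union_right _
    (Finset.mem_image_of_mem _ (Finset.mem_univ _)))
  let a' : Fin (r + 2) → L := fun j => ⟨a j, haL j⟩
  have ha' : Function.Injective a' := fun i j hij => ha (congrArg Subtype.val hij)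
  let Γ' : Set K := {x | ∃ u ∈ Γ, (u : K) = x}
  have h0 : (0 : K) ∉ Γ' := by
    rintro ⟨u, -, hu⟩
    exact u.ne_zero hu
  have hΓ' : ∀ α β : K, α ≠ 0 → β ≠ 0 →
      {u : K | u ∈ Γ' ∧ ∃ v ∈ Γ', α * u + β * v = 1}.Finite := by
    intro α β hα hβ
    refine ((unit_two Γ hΓ hα hβ).image (fun u : Kˣ => (u : K))).subset ?_
    rintro _ ⟨⟨u, hu, rfl⟩, _, ⟨v, hv, rfl⟩, huv⟩
    exact ⟨u, ⟨hu, v, hv, huv⟩, rfl⟩
  have hfin := fin_three (k := k1) (L := L) (K := K) (m := m) hm ha' Cn hC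
    (fun j hj => ⟨⟨a j, hk01 (hCc j hj)⟩, rfl⟩) S hS
    (fun j hj c hc => moves hk01 hac hsk1 (hSm j hj) (by
      have h1 : a j = (c : K) := congrArg Subtype.val hc
      rw [h1]
      exact c.2)) (j0 := jj 0) (j1 := jj 1) (j2 := jj 2) (fun h => absurd (hjj h) (by decide))
        (fun h => absurd (hjj h) (by decide)) (fun h => absurd (hjj h) (by decide)) h0 hΓ'
  have hcl : ∀ x ∈ Subfield.closure ((k0 : Set K) ∪ (T : Set K)), x ∈ L := by
    intro x hx
    have h1 : Subfield.closure ((k0 : Set K) ∪ (T : Set K)) ≤ L.toSubfield := by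
      rw [Subfield.closure_le]
      rintro t (ht | ht)
      · exact L.algebraMap_mem ⟨t, hk01 ht⟩
      · exact hTL t (Finset.mem_union_left _ ht)
    exact h1 hx
  set A : Set (Fin (r + 2) → L) := {y | y (jj 0) = 1 ∧ (∃ H : Polynomial K, H.natDegree ≤ n ∧
      (∀ j, H.eval (algebraMap L K (a' j)) = algebraMap L K (y j) ^ m) ∧ Simple m H) ∧
      algebraMap L K (y (jj 1)) ∈ Γ' ∧ algebraMap L K (y (jj 2)) ∈ Γ'} with hAd
  have hne : ∀ z : A, (fun i => algebraMap L K (z.1 i)) ≠ 0 := fun z h => by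
    have h1 := congrFun h (jj 0)
    simp only [z.2.1, map_one, Pi.zero_apply] at h1
    exact one_ne_zero h1
  have hA : Finite A := hfin
  refine (Set.finite_range fun z : A => Projectivization.mk K _ (hne z)).subset ?_
  rintro p ⟨x, hxF, hxT, hxΓ, hx0, rfl⟩
  have hj0' : x (jj 0) ≠ 0 := hxF.2.1 _ (hjU 0)
  have hxL : ∀ i, x i ∈ L := fun i => hcl _ (hxT i)
  let z : Fin (r + 2) → L := fun i => ⟨x i, hxL i⟩ / ⟨x (jj 0), hxL (jj 0)⟩
  have hzv : ∀ i, algebraMap L K (z i) = x i / x (jj 0) := fun i => rfl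
  have hzc : (fun i => algebraMap L K (z i)) = (x (jj 0))⁻¹ • x := by
    funext i
    change x i / x (jj 0) = (x (jj 0))⁻¹ * x i
    rw [div_eq_inv_mul]
  have hzmem : z ∈ A := by
    refine ⟨?_, ?_, ?_, ?_⟩
    · apply Subtype.ext
      change x (jj 0) / x (jj 0) = 1
      rw [div_self hj0']
    · obtain ⟨H, h1, h2, h3⟩ := (hcov x hxF).smul (inv_ne_zero hj0')
      refine ⟨H, h1, fun j => ?_, h3⟩
      rw [← hzc] at h2
      exact (h2 j).symm
    · obtain ⟨u, hu, hux⟩ := hxΓ (jj 1) (hjU 1) (jj 0) (hjU 0)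
      refine ⟨u, hu, ?_⟩
      rw [hzv, hux, mul_div_cancel_right₀ _ hj0']
    · obtain ⟨u, hu, hux⟩ := hxΓ (jj 2) (hjU 2) (jj 0) (hjU 0)
      refine ⟨u, hu, ?_⟩
      rw [hzv, hux, mul_div_cancel_right₀ _ hj0']
  refine ⟨⟨z, hzmem⟩, ?_⟩
  change Projectivization.mk K _ _ = Projectivization.mk K _ _
  rw [Projectivization.mk_eq_mk_iff']
  exact ⟨(x (jj 0))⁻¹, hzc.symm⟩

end

end Pool.Agent.U463.PV
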