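import Pool.Agent.U463.PV.Main
import Pool.Agent.Y190.SN.Lang
import Pool.Agent.Y190.PH.Tf

/-!
The conjecture of Lang and Vojta for proper varieties, for the closed subvarieties of the varieties
of the vectors whose powers are the values of a polynomial of any degree.
-/

set_option autoImplicit false

open FF Pool.Agent.W603.LV Pool.Agent.W602.GT Pool.Agent.Y190.BV Pool.Agent.TH145.MF
  Pool.Agent.Y190.GN Pool.Agent.Y190.QP Pool.Agent.Y190.AH
open Pool.Agent.Y190.PH (AllSimple simple_all)
open LinearAlgebra.Projectivization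
open Pool.Agent.Y190.SN (Simple)

namespace Pool.Agent.U463.PV

variable {K : Type} [Field K] [IsAlgClosed K] [CharZero K] {N n m : ℕ} {ι : Type}

/-- The points of the variety of all the vectors of values that are not simple are on lines. -/
theorem onLine_of_not_simple (hm : 1 ≤ m) (hnN : n ≤ N) {a : Fin (N + 1) → K}
    (ha : Function.Injective a) {F : ι → MvPolynomial (Fin (N + 1)) K}
    (hF : ∀ e, IsForm (F e)) (hV : Cone F = PowVal a n m)
    {x : Fin (N + 1) → K} (hx : x ∈ Cone F) (hs : ¬ SimplePt a n m x) : OnLine F x := by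
  classical
  rw [hV] at hx
  obtain ⟨hx0, H, hHd, hH⟩ := hx
  have hs' : ¬ Simple m H := fun h => hs ⟨H, hHd, hH, h⟩
  unfold Simple at hs'
  push Not at hs'
  obtain ⟨q, ⟨R, hR⟩, hq⟩ := hs'
  have hm0 : m ≠ 0 := by omega
  have hH0 : H ≠ 0 := by
    rintro rfl
    apply hx0
    funext i
    have h3 := hH i
    rw [Polynomial.eval_zero] at h3
    exact pow_eq_zero_iff hm0 |>.1 h3
  have hR0 : R ≠ 0 := by
    rintro rfl
    rw [mul_zero] at hR
    exact hH0 hR
  have hq0 : q ≠ 0 := by
    rintro rfl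
    rw [zero_pow hm0, zero_mul] at hR
    exact hH0 hR
  have hdeg : H.natDegree = m * q.natDegree + R.natDegree := by
    rw [hR, Polynomial.natDegree_mul (pow_ne_zero _ hq0) hR0, Polynomial.natDegree_pow]
  -- the roots of the values of `R`
  have hρ : ∀ i, ∃ ρ : K, ρ ^ m = R.eval (a i) ∧ x i = q.eval (a i) * ρ := by
    intro i
    by_cases hqi : q.eval (a i) = 0
    · obtain ⟨ρ, hρ⟩ := IsAlgClosed.exists_pow_nat_eq (R.eval (a i)) (by omega : 0 < m)
      refine ⟨ρ, hρ, ?_⟩
      rw [hqi, zero_mul]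
      have h3 := hH i
      rw [hR, Polynomial.eval_mul, Polynomial.eval_pow, hqi, zero_pow hm0, zero_mul] at h3
      exact pow_eq_zero_iff hm0 |>.1 h3
    · refine ⟨x i / q.eval (a i), ?_, ?_⟩
      · rw [div_pow, hH i, hR, Polynomial.eval_mul, Polynomial.eval_pow]
        have := pow_ne_zero m hqi
        field_simp
      · field_simp
  choose ρ hρ1 hρ2 using hρ
  -- all the polynomials of degree at most that of `q`
  have hmem : ∀ p : Polynomial K, p.natDegree ≤ q.natDegree →
      (fun i => p.eval (a i) * ρ i) ≠ 0 → (fun i => p.eval (a i) * ρ i) ∈ Cone F := by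
    intro p hp h0
    rw [hV]
    refine ⟨h0, p ^ m * R, ?_, fun i => ?_⟩
    · refine (Polynomial.natDegree_mul_le).trans ?_
      rw [Polynomial.natDegree_pow]
      have := Nat.mul_le_mul_left m hp
      omega
    · rw [mul_pow, hρ1, Polynomial.eval_mul, Polynomial.eval_pow]
  have hzero : ∀ p : Polynomial K, p.natDegree ≤ q.natDegree →
      (∀ i, p.eval (a i) * ρ i = 0) → p = 0 := by
    intro p hp h
    by_contra hp0
    have h1 : p * R = 0 := by
      refine Polynomial.eq_zero_of_natDegree_lt_card_of_eval_eq_zero _ (f := a) ha (fun i => ?_) ?_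
      · rw [Polynomial.eval_mul]
        rcases mul_eq_zero.1 (h i) with h2 | h2
        · rw [h2, zero_mul]
        · rw [← hρ1 i, h2, zero_pow hm0, mul_zero]
      · rw [Fintype.card_fin]
        have h3 := Polynomial.natDegree_mul_le (p := p) (q := R)
        have h4 : q.natDegree ≤ m * q.natDegree := Nat.le_mul_of_pos_left _ (by omega)
        omega
    exact (mul_ne_zero hp0 hR0) h1
  -- the line
  have hcomb : ∀ c c' : K, c • (fun i => q.eval (a i) * ρ i) + c' • ρ =
      fun i => (Polynomial.C c * q + Polynomial.C c').eval (a i) * ρ i := by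
    intro c c'
    funext i
    simp only [Pi.add_apply, Pi.smul_apply, smul_eq_mul, Polynomial.eval_add,
      Polynomial.eval_mul, Polynomial.eval_C]
    ring
  have hcd : ∀ c c' : K, (Polynomial.C c * q + Polynomial.C c').natDegree ≤ q.natDegree := by
    intro c c'
    refine (Polynomial.natDegree_add_le _ _).trans (max_le (Polynomial.natDegree_C_mul_le _ _) ?_)
    rw [Polynomial.natDegree_C]
    exact Nat.zero_le _
  have hcz : ∀ c c' : K, Polynomial.C c * q + Polynomial.C c' = 0 → c = 0 ∧ c' = 0 := by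
    intro c c' h
    have h1 := congrArg (fun p => p.coeff q.natDegree) h
    simp only [Polynomial.coeff_add, Polynomial.coeff_C_mul, Polynomial.coeff_zero] at h1
    rw [Polynomial.coeff_C_of_ne_zero (by omega), add_zero] at h1
    have h2 : c = 0 := (mul_eq_zero.1 h1).resolve_right
      (Polynomial.leadingCoeff_ne_zero.2 hq0)
    subst h2
    rw [Polynomial.C_0, zero_mul, zero_add, Polynomial.C_eq_zero] at h
    exact ⟨rfl, h⟩
  have hxq : x = fun i => q.eval (a i) * ρ i := funext hρ2
  refine ⟨x, ρ, ⟨?_, fun c c' e => ?_⟩, 1, 0, by rw [one_smul, zero_smul, add_zero]⟩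
  · rw [LinearIndependent.pair_iff]
    intro c c' h
    rw [hxq, hcomb] at h
    exact hcz c c' (hzero _ (hcd c c') fun i => congrFun h i)
  · rw [hxq, hcomb]
    by_cases h0 : (fun i => (Polynomial.C c * q + Polynomial.C c').eval (a i) * ρ i) = 0
    · rw [h0]
      obtain ⟨d, hd⟩ := hF e
      by_cases hd0 : d = 0
      · -- a constant form that vanishes at a point
        have h1 := (hmem q le_rfl (by rw [← hxq]; exact hx0)).2 e
        subst hd0
        obtain ⟨b, hb⟩ : ∃ b, F e = MvPolynomial.C b := by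
          have := (MvPolynomial.totalDegree_eq_zero_iff_eq_C (p := F e)).1
            (Nat.le_zero.1 (hd.totalDegree_le))
          exact ⟨_, this⟩
        unfold val at h1 ⊢
        rw [hb, MvPolynomial.aeval_C] at h1 ⊢
        exact h1
      · have h2 := Pool.Agent.H159R3.Lang.aeval_smul_homog hd (0 : K) (0 : Fin (N + 1) → K)
        unfold val
        rw [smul_zero, zero_pow hd0, zero_mul] at h2
        exact h2
    · exact (hmem _ (hcd c c') h0).2 e

/-- **Finiteness** for the variety of all the vectors of values, and for the closed subsets all of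
whose points are simple. -/
theorem off_finite' (hm : 2 ≤ m) (hn : 1 ≤ n)
    {a : Fin (N + 1) → K} (ha : Function.Injective a) {k0 : Subfield K} (hk : Moving k0 a n)
    {F : ι → MvPolynomial (Fin (N + 1)) K} (hF : ∀ e, IsForm (F e))
    (hV : Cone F = PowVal a n m ∨ AllSimple a n m F) (T : Finset K) :
    (OffPts F k0 T).Finite := by
  classical
  refine (off_finiteS (m := m) hm hn ha hk hF T).subset ?_
  rintro p ⟨x, hx, hoff, hxT, hx0, rfl⟩
  refine ⟨x, hx, ?_, hoff, hxT, hx0, rfl⟩
  rcases hV with hV | hV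
  · by_contra hns
    have hnN : n ≤ N := by
      obtain ⟨s, Cn, S, hs, hC, -⟩ := hk
      have := Finset.card_le_univ Cn
      rw [Fintype.card_fin] at this
      omega
    exact hoff (onLine_of_not_simple (by omega) hnN ha hF hV hx hns)
  · exact hV x hx

theorem mordellic_iffS (hm : 2 ≤ m) (hn : 1 ≤ n) {a : Fin (N + 1) → K}
    (ha : Function.Injective a) {k0 : Subfield K} (hk : Moving k0 a n)
    {F : ι → MvPolynomial (Fin (N + 1)) K} (hF : ∀ e, IsForm (F e))
    (hV : Cone F = PowVal a n m ∨ AllSimple a n m F) :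
    Mordellic F ↔ ∀ p q, ¬ Line F p q := by
  refine ⟨noLine_of_mordellic, fun h => ⟨∅, fun T _ => ?_⟩⟩
  refine (off_finite' hm hn ha hk hF hV T).subset (ratPts_sub subset_rfl ?_)
  rintro x - ⟨p, q, hpq, -⟩
  exact h p q hpq

/-- All subvarieties are of general type if and only if there are no lines. -/
theorem general_iffS (hm : 2 ≤ m) (hN : 4 * n + (n + 1) ^ 2 < 2 * (N + 1))
    {a : Fin (N + 1) → K} (ha : Function.Injective a)
    {F : ι → MvPolynomial (Fin (N + 1)) K} (hF : ∀ e, IsForm (F e))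
    (hV : AllSimple a n m F) : AllGeneralType F ↔ ∀ p q, ¬ Line F p q := by
  have hn : n ≤ N := by nlinarith
  have hsub' : Cone F ⊆ Cone (buchi a n m) := hV.sub hn ha
  constructor
  · intro h p q hpq
    obtain ⟨P, hP⟩ := gm_of_line hpq
    obtain ⟨L, _, _, y, hy, hgt⟩ := sub_of_gm hF hP
    exact hgt (h L 1 y le_rfl hy)
  · intro h L _ _ w y hw hy
    by_contra hgt
    have hchK : CharZero L := charZero_of_injective_algebraMap (algebraMap K L).injective
    have hinfK : Infinite L := inferInstance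
    have hy' : SubVar (buchi a n m) L w y := ⟨hy.ne, sub_ext hsub' hy.ne hy.mem, hy.gen, hy.dim⟩
    have hsim := simple_all (by omega) hn ha hV hy.ne hy.mem
    obtain ⟨hmn, t, z, hyz, hz, ⟨i, j, hij, hi, hj⟩, htr, htop⟩ :=
      Pool.Agent.Y190.SN.structure_thm hm hn hN ha hy' hsim hgt
    have h1 := mem_closure (G := 1) y z ⟨i, j, wedge_ne ha hyz hij hi hj⟩
      (fun c c' e => line_vanish hyz hi htr (hF e) (hy.mem e) c c')
      (fun p q hpq => absurd hpq (h p q))
    unfold val at h1
    rw [map_one] at h1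
    exact one_ne_zero h1

/-- **The conjecture of Lang and Vojta.** -/
theorem lang_vojtaS (hm : 2 ≤ m) (hn1 : 1 ≤ n)
    (hN : 4 * n + (n + 1) ^ 2 < 2 * (N + 1)) {a : Fin (N + 1) → K} (ha : Function.Injective a)
    {k0 : Subfield K} (hk : Moving k0 a n) {L : Type} [Field L] [Algebra K L] {w : ℕ}
    {y : Fin (N + 1) → L} (hy0 : y ≠ 0) (hgen : coords K y = ⊤)
    (hdim : Algebra.trdeg K L = w) {H : Polynomial L} (hH : H.natDegree ≤ n)
    (hy : ∀ i, y i ^ m = H.eval (algebraMap K L (a i))) (hs : Simple m H) :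
    [GeneralType K L w, PseudoMordellic K y, ¬ Ruled K L].TFAE := by
  have hn : n ≤ N := by nlinarith
  have hcz : CharZero L := charZero_of_injective_algebraMap (algebraMap K L).injective
  have hsub := powVal_closed ha hn hH hy
  have hF : ∀ e, IsForm (eqs (K := K) y e) := fun e => e.2.1
  have hsv : SubVar (eqs (K := K) y) L w y := ⟨hy0, fun e => e.2.2, hgen, hdim⟩
  have hint : intp a hn (fun i => y i ^ m) = H := Pool.Agent.Y190.SN.intp_eq ha hn hH hy
  have hs' : Simple m (intp a hn (fun i => y i ^ m)) := by rw [hint]; exact hs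
  have hH0 : H ≠ 0 := by
    rintro rfl
    apply hy0
    funext i
    have h3 := hy i
    rw [Polynomial.eval_zero] at h3
    exact pow_eq_zero_iff (by omega) |>.1 h3
  have heq := Pool.Agent.Y190.SN.lang_simple hm hn hN ha hF
    (by rw [cone_buchi ha hn]; exact hsub) hsv hs' (fun G hG => gen_eqs hy0 G hG)
  have h63 : ¬ GeneralType K L w ↔ SpLine (eqs (K := K) y) = Cone (eqs (K := K) y) :=
    heq.out 6 3
  have h64 : ¬ GeneralType K L w ↔ SpGm (eqs (K := K) y) = Cone (eqs (K := K) y) :=
    heq.out 6 4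
  have h62 : ¬ GeneralType K L w ↔ Ruled K L := heq.out 6 2
  tfae_have 1 ↔ 3 := by
    rw [← h62, not_not]
  tfae_have 1 → 2 := by
    intro h
    have h1 : SpLine (eqs (K := K) y) ≠ Cone (eqs (K := K) y) := fun h2 => h63.2 h2 h
    obtain ⟨x, hx, hxn⟩ : ∃ x ∈ Cone (eqs (K := K) y), x ∉ SpLine (eqs (K := K) y) := by
      by_contra hcon
      push Not at hcon
      exact h1 (Set.Subset.antisymm (fun x hx => hx.1) hcon)
    obtain ⟨G, hG, hall, hGx⟩ : ∃ G : MvPolynomial (Fin (N + 1)) K, IsForm G ∧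
        (∀ p q, Line (eqs (K := K) y) p q → ∀ c c' : K, val (c • p + c' • q) G = 0) ∧
        val x G ≠ 0 := by
      by_contra hcon
      push Not at hcon
      exact hxn ⟨hx, fun G hG h => hcon G hG h⟩
    obtain ⟨i0, hi0⟩ := Function.ne_iff.1 hy0
    obtain ⟨G1, hG1, hG1y, hG1x⟩ := Pool.Agent.Y190.SN.exists_simple (by omega) hn
      (i0 := i0) hi0 hgen (by rw [hint]; exact hH0) hs' ∅
    have hmulval : ∀ {M : Type} [Field M] [Algebra K M] (z : Fin (N + 1) → M),
        val z (G * G1) = val z G * val z G1 := fun z => map_mul _ _ _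
    refine ⟨G * G1, ∅, ?_, ?_, fun T _ => ?_⟩
    · obtain ⟨d, hd⟩ := hG
      obtain ⟨d1, hd1⟩ := hG1
      exact ⟨d + d1, hd.mul hd1⟩
    · rw [hmulval]
      exact mul_ne_zero (fun h0 => hGx ((gen_eqs hy0 G hG).1 h0 x hx)) hG1y
    · refine (off_finiteS (m := m) hm hn1 ha hk hF T).subset ?_
      rintro p ⟨z, ⟨hzV, hzG⟩, hzT, hz0, rfl⟩
      have hzG' : val z (G * G1) ≠ 0 := hzG
      rw [hmulval] at hzG'
      have hzc : z ∈ Cone (eqs (K := K) y) := by
        rw [cone_eqs]
        exact hzV
      obtain ⟨-, hz2, -⟩ := hG1x K z hzV.2 (right_ne_zero_of_mul hzG')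
      refine ⟨z, hzc, ?_, ?_, fun i => Subfield.closure_mono Set.subset_union_right (hzT i),
        hz0, rfl⟩
      · obtain ⟨-, Hz, h1, h2⟩ := hsub hzc
        refine ⟨Hz, h1, h2, ?_⟩
        have h3 : intp a hn (fun i => z i ^ m) = Hz :=
          Pool.Agent.Y190.SN.intp_eq (K := K) ha hn h1 h2
        rw [← h3]
        exact hz2
      · rintro ⟨p, q, hpq, c, c', rfl⟩
        exact left_ne_zero_of_mul hzG' (hall p q hpq c c')
  tfae_have 2 → 1 := by
    rintro ⟨G, s0, hG, hGy, hfin⟩
    by_contra hgt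
    have hsp := h64.1 hgt
    obtain ⟨x, hx, hxG⟩ : ∃ x ∈ Cone (eqs (K := K) y), val x G ≠ 0 := by
      by_contra hcon
      push Not at hcon
      exact hGy ((gen_eqs hy0 G hG).2 hcon)
    rw [← hsp] at hx
    obtain ⟨P, hP, t, -, ht⟩ : ∃ P, GmCurve (eqs (K := K) y) P ∧ ∃ t : K, t ≠ 0 ∧
        val (fun i => (P i).eval t) G ≠ 0 := by
      by_contra hcon
      push Not at hcon
      exact hxG (hx.2 G hG hcon)
    obtain ⟨T, hT, hinf⟩ := infinite_points hP ht s0
    apply hinf
    have h1 := hfin T hT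
    rw [← cone_eqs] at h1
    exact h1
  tfae_finish

end Pool.Agent.U463.PV
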