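import Pool.Agent.U463.PV.Glob2
import Pool.Agent.Y190.QP.SpB
import Pool.Agent.Y190.SN.StrU
import Pool.Agent.Y190.PH.Clo

/-!
Integral points on the complements of coordinate hyperplanes in the closed subsets of the varieties
of the vectors whose powers are the values of a polynomial, with constant and moving nodes.
-/

set_option autoImplicit false

open FF Pool.Agent.W603.LV Pool.Agent.W602.GT Pool.Agent.Y190.BV Pool.Agent.TH145.MF
  Pool.Agent.Y190.GN Pool.Agent.Y190.QP
open Pool.Agent.Y190.PH (AllSimple simple_all)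
open LinearAlgebra.Projectivization
open Pool.Agent.Y190.SN (Simple)

namespace Pool.Agent.U463.PV

section

variable {K : Type} [Field K] {N : ℕ} {ι : Type}

theorem exists_minor {p q : Fin (N + 1) → K} (h : LinearIndependent K ![p, q]) :
    ∃ i j, p i * q j - p j * q i ≠ 0 := by
  by_contra hcon
  push Not at hcon
  rw [LinearIndependent.pair_iff] at h
  have hq : q ≠ 0 := by
    rintro rfl
    exact one_ne_zero (h 0 1 (by simp)).2
  obtain ⟨j, hj⟩ := Function.ne_iff.1 hq
  apply hj
  refine (h (q j) (-(p j)) ?_).1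
  funext i
  simp only [Pi.add_apply, Pi.smul_apply, smul_eq_mul, Pi.zero_apply]
  linear_combination hcon i j

/-- infinitely many integral points on a line which meets the boundary in at most two points -/
theorem int_infinite [CharZero K] {U : Set (Fin (N + 1))} {F : ι → MvPolynomial (Fin (N + 1)) K}
    {p q : Fin (N + 1) → K} (h : GmLine U F p q) : ∃ T : Finset K, (IntPts U F T).Infinite := by
  classical
  obtain ⟨i1, i2, hδ⟩ := exists_minor h.1
  set δ : K := p i1 * q i2 - p i2 * q i1 with hδd
  have h12 : i1 ≠ i2 := by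
    rintro rfl
    apply hδ
    rw [hδd]
    ring
  let T : Finset K := (Finset.univ.image p ∪ Finset.univ.image q) ∪
    (Finset.univ.image (fun j => (p j)⁻¹) ∪ Finset.univ.image (fun j => (q j)⁻¹)) ∪ {2⁻¹, δ⁻¹}
  have hTR : ∀ x ∈ T, x ∈ Subring.closure (T : Set K) := fun x hx => Subring.subset_closure hx
  have hp : ∀ i, p i ∈ Subring.closure (T : Set K) := fun i => hTR _ (by simp [T])
  have hq : ∀ i, q i ∈ Subring.closure (T : Set K) := fun i => hTR _ (by simp [T])
  have hp' : ∀ i, (p i)⁻¹ ∈ Subring.closure (T : Set K) := fun i => hTR _ (by simp [T])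
  have hq' : ∀ i, (q i)⁻¹ ∈ Subring.closure (T : Set K) := fun i => hTR _ (by simp [T])
  have h2 : (2 : K)⁻¹ ∈ Subring.closure (T : Set K) := hTR _ (by simp [T])
  have hδ' : δ⁻¹ ∈ Subring.closure (T : Set K) := hTR _ (by simp [T])
  have h2' : (2 : K) ∈ Subring.closure (T : Set K) := by
    have := add_mem (one_mem (Subring.closure (T : Set K))) (one_mem _)
    rwa [one_add_one_eq_two] at this
  have hpow : ∀ k : ℕ, (2 : K) ^ k ≠ 0 := fun k => pow_ne_zero k two_ne_zero
  have hx : ∀ k : ℕ, p + (2 : K) ^ k • q ∈ ConeU U F := by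
    intro k
    have := h.2 1 ((2 : K) ^ k) one_ne_zero (hpow k)
    rwa [one_smul] at this
  refine ⟨T, Set.infinite_of_injective_forall_mem
    (f := fun k : ℕ => Projectivization.mk K (p + (2 : K) ^ k • q) (hx k).1) ?_ ?_⟩
  · intro k l hkl
    have hkl : Projectivization.mk K (p + (2 : K) ^ k • q) (hx k).1 =
      Projectivization.mk K (p + (2 : K) ^ l • q) (hx l).1 := hkl
    rw [Projectivization.mk_eq_mk_iff'] at hkl
    obtain ⟨c, hc⟩ := hkl
    have h1 := (LinearIndependent.pair_iff.1 h.1) (c - 1) (c * 2 ^ l - 2 ^ k) (by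
      rw [sub_smul, sub_smul, mul_smul, one_smul]
      rw [smul_add] at hc
      have : c • p + c • (2 : K) ^ l • q - (p + (2 : K) ^ k • q) = 0 := by rw [hc, sub_self]
      rw [← this]
      abel)
    have hc1 : c = 1 := sub_eq_zero.1 h1.1
    have h3 : (2 : K) ^ l = 2 ^ k := by
      have := sub_eq_zero.1 h1.2
      rwa [hc1, one_mul] at this
    have h4 : (2 : ℕ) ^ l = 2 ^ k := by exact_mod_cast h3
    exact (Nat.pow_right_injective le_rfl h4).symm
  · intro k
    refine ⟨_, hx k, fun i => ?_, ?_, fun j hj => ?_, (hx k).1, rfl⟩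
    · exact add_mem (hp i) (mul_mem (pow_mem h2' k) (hq i))
    · refine ⟨fun i => (if i = i1 then q i2 * δ⁻¹ else 0) + if i = i2 then -(q i1 * δ⁻¹) else 0,
        fun i => ?_, ?_⟩
      · refine add_mem ?_ ?_
        · split_ifs
          · exact mul_mem (hq _) hδ'
          · exact zero_mem _
        · split_ifs
          · exact neg_mem (mul_mem (hq _) hδ')
          · exact zero_mem _
      · simp only [add_mul, ite_mul, zero_mul, Finset.sum_add_distrib, Finset.sum_ite_eq',
          Finset.mem_univ, if_true, Pi.add_apply, Pi.smul_apply, smul_eq_mul]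
        field_simp
        rw [hδd]
        ring
    · have hor : p j = 0 ∨ q j = 0 := by
        by_contra hcon
        push Not at hcon
        have h3 := (h.2 (q j) (-(p j)) hcon.2 (neg_ne_zero.2 hcon.1)).2.1 j hj
        apply h3
        simp only [Pi.add_apply, Pi.smul_apply, smul_eq_mul]
        ring
      simp only [Pi.add_apply, Pi.smul_apply, smul_eq_mul]
      rcases hor with h0 | h0
      · rw [h0, zero_add, mul_inv, ← inv_pow]
        exact mul_mem (pow_mem h2 k) (hq' j)
      · rw [h0, mul_zero, add_zero]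
        exact hp' j

/-- for `n < 2 m` all points are simple -/
theorem allSimple_of_lt {n m : ℕ} (hnm : n < 2 * m) {a : Fin (N + 1) → K}
    {F : ι → MvPolynomial (Fin (N + 1)) K} (hF : Cone F ⊆ PowVal a n m) :
    AllSimple a n m F := by
  intro x hx
  obtain ⟨hx0, H, h1, h2⟩ := hF hx
  have hm : m ≠ 0 := by omega
  have hH : H ≠ 0 := by
    rintro rfl
    apply hx0
    funext i
    have h3 := h2 i
    rw [Polynomial.eval_zero] at h3
    exact pow_eq_zero_iff hm |>.1 h3
  exact ⟨H, h1, h2, Pool.Agent.Y190.SN.simple_of_deg hnm hH h1⟩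

end

section

variable {K : Type} [Field K] [IsAlgClosed K] [CharZero K] {N n m : ℕ} {ι : Type}

/-- a point of `X` on a line contained in `{F = 0}`, if there are at most two boundary
hyperplanes -/
theorem gm_of_onLine {U : Set (Fin (N + 1))} {j1 j2 : Fin (N + 1)}
    (hU : ∀ j ∈ U, j = j1 ∨ j = j2) {F : ι → MvPolynomial (Fin (N + 1)) K}
    (hgm : ∀ p q, ¬ GmLine U F p q) {x : Fin (N + 1) → K} (hx : x ∈ ConeU U F) :
    ¬ OnLine F x := by
  rintro ⟨p, q, hpq, c, c', rfl⟩
  obtain ⟨i, j, hij⟩ := exists_minor hpq.1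
  have key : ∀ v : Fin (N + 1) → K, (∃ i j, (c • p + c' • q) i * v j -
      (c • p + c' • q) j * v i ≠ 0) → (v = p ∨ v = q) → False := by
    classical
    intro v hv hvpq
    have h1 := vanish_gm (K := K) hU (c • p + c' • q) v hx.2.1 hv (F := F) (by
      intro d d' e
      have h2 : (fun l => d * (c • p + c' • q) l + d' * v l) =
          (if v = p then ((d * c + d') • p + (d * c') • q) else
            ((d * c) • p + (d * c' + d') • q)) := by
        split_ifs with h
        · funext l
          simp only [Pi.add_apply, Pi.smul_apply, smul_eq_mul, h]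
          ring
        · have h3 := hvpq.resolve_left h
          funext l
          simp only [Pi.add_apply, Pi.smul_apply, smul_eq_mul, h3]
          ring
      rw [h2]
      split_ifs
      · exact hpq.2 _ _ e
      · exact hpq.2 _ _ e) (G := 1) (fun a b hab => absurd hab (hgm a b))
    unfold val at h1
    rw [map_one] at h1
    exact one_ne_zero h1
  by_cases hc : c' = 0
  · have hc0 : c ≠ 0 := by
      rintro rfl
      apply hx.1
      rw [hc, zero_smul, zero_smul, add_zero]
    refine key q ⟨i, j, ?_⟩ (Or.inr rfl)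
    simp only [Pi.add_apply, Pi.smul_apply, smul_eq_mul, hc, zero_mul, add_zero]
    have := mul_ne_zero hc0 hij
    intro h0
    apply this
    linear_combination h0
  · refine key p ⟨i, j, ?_⟩ (Or.inl rfl)
    simp only [Pi.add_apply, Pi.smul_apply, smul_eq_mul]
    have := mul_ne_zero hc hij
    intro h0
    apply this
    linear_combination -h0

/-- **The conjecture of Lang and Vojta and its converse.** -/
theorem main (hm : 2 ≤ m) (hn : 1 ≤ n)
    (hN : 4 * n + (n + 1) ^ 2 < 2 * (N + 1)) {a : Fin (N + 1) → K} (ha : Function.Injective a)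
    {k0 : Subfield K} (hk : Moving k0 a n) (U : Set (Fin (N + 1)))
    {F : ι → MvPolynomial (Fin (N + 1)) K} (hF : ∀ e, IsForm (F e))
    (hV : AllSimple a n m F) :
    [AllLogGeneralType U F,
      ∀ (T : Finset K) (Γ : Subgroup Kˣ), Γ.FG → (UnitPts U F k0 T Γ).Finite,
      ∀ T : Finset K, (IntPts U F T).Finite,
      ∀ p q, ¬ GmLine U F p q].TFAE := by
  classical
  have hnN : n ≤ N := by nlinarith
  have hsub : ConeU U F ⊆ Cone (buchi a n m) :=
    fun x hx => hV.sub hnN ha ⟨hx.1, hx.2.2⟩
  tfae_have 1 → 4 := by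
    intro h p q hpq
    obtain ⟨y, hy, hgt, -⟩ := gm_subvar hpq
    exact hgt (h _ 1 y le_rfl hy)
  tfae_have 4 → 1 := by
    intro h L _ _ w y hw hy
    by_contra hgt
    have hchK : CharZero L := charZero_of_injective_algebraMap (algebraMap K L).injective
    have hinfK : Infinite L := inferInstance
    have hy' : SubVar (buchi a n m) L w y :=
      ⟨hy.ne, sub_extU hsub hy.ne hy.unit hy.mem, hy.gen, hy.dim⟩
    have hsim := simple_all (by omega) hnN ha hV hy.ne hy.mem
    rcases U_cases U with ⟨jj, hjj, hjU⟩ | ⟨j1, j2, hU⟩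
    · exact absurd (Pool.Agent.Y190.SN.lgt_threeS hm hnN hN ha hy' hsim hy.unit hjj hjU) hgt
    · obtain ⟨-, t, z, hyz, -, ⟨i, j, hij, hi, hj⟩, htr, -⟩ :=
        Pool.Agent.Y190.SN.structure_thm hm hnN hN ha hy' hsim (fun h => hgt (lgt_of_gt h))
      have h1 := vanish_gm hU y z hy.unit ⟨i, j, wedge_ne ha hyz hij hi hj⟩
        (fun c c' e => line_vanish hyz hi htr (hF e) (hy.mem e) c c') (G := 1)
        (fun p q hpq => absurd hpq (h p q))
      unfold val at h1
      rw [map_one] at h1
      exact one_ne_zero h1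
  tfae_have 4 → 2 := by
    intro h T Γ hΓ
    rcases U_cases U with ⟨jj, hjj, hjU⟩ | ⟨j1, j2, hU⟩
    · exact three_finite hm hn ha hk (fun x hx => hV x ⟨hx.1, hx.2.2⟩) hjj hjU T Γ hΓ
    · refine (off_finiteS hm hn ha hk hF T).subset ?_
      rintro p ⟨x, hx, hxT, -, hx0, rfl⟩
      exact ⟨x, ⟨hx.1, hx.2.2⟩, hV x ⟨hx.1, hx.2.2⟩, gm_of_onLine hU h hx, hxT, hx0, rfl⟩
  tfae_have 2 → 3 := by
    intro h T
    obtain ⟨Γ, hΓ, hu⟩ := units_fg T
    refine (h T Γ hΓ).subset ?_
    rintro p ⟨x, hx, hxT, -, hxU, hx0, rfl⟩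
    refine ⟨x, hx, fun i => ?_, fun j hj j' hj' => ?_, hx0, rfl⟩
    · have h1 : Subring.closure (T : Set K) ≤
          (Subfield.closure ((k0 : Set K) ∪ (T : Set K))).toSubring := by
        rw [Subring.closure_le]
        exact fun t ht => Subfield.subset_closure (Or.inr ht)
      exact h1 (hxT i)
    · have hj0 := hx.2.1 j hj
      have hj0' := hx.2.1 j' hj'
      refine ⟨Units.mk0 (x j) hj0 * (Units.mk0 (x j') hj0')⁻¹, hu _ ?_ ?_, ?_⟩
      · exact mul_mem (hxT j) (hxU j' hj')
      · rw [mul_inv, inv_inv]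
        exact mul_mem (hxU j hj) (hxT j')
      · change x j = x j * (x j')⁻¹ * x j'
        rw [mul_assoc, inv_mul_cancel₀ hj0', mul_one]
  tfae_have 3 → 4 := by
    intro h p q hpq
    obtain ⟨T, hT⟩ := int_infinite hpq
    exact hT (h T)
  tfae_finish

end

end Pool.Agent.U463.PV
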