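import Pool.Agent.Y190.GN.Tra

/-!
Powers of polynomials of any degree which divide a polynomial with coefficients in the ultrapower.
-/

set_option autoImplicit false

open Polynomial FF Pool.Agent.W602.RG Pool.Agent.TH145.MF

namespace Pool.Agent.U463.PV

section

variable {L : Type} [Field L]

theorem map_eventually {A B : (ℕ → L)[X]} (h : A.map (mkHom L) = B.map (mkHom L)) :
    ∀ᶠ l in (Filter.hyperfilter ℕ : Filter ℕ),
      A.map (Pi.evalRingHom (fun _ => L) l) = B.map (Pi.evalRingHom (fun _ => L) l) := by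
  classical
  have h1 : ∀ i ∈ Finset.range (max A.natDegree B.natDegree + 1),
      ∀ᶠ l in (Filter.hyperfilter ℕ : Filter ℕ), A.coeff i l = B.coeff i l := by
    intro i _
    have h2 := congrArg (fun p => p.coeff i) h
    simp only [coeff_map, mkHom_apply] at h2
    exact Om.mk_eq.1 h2
  filter_upwards [(Finset.range _).eventually_all.2 h1] with l hl
  ext i
  rw [coeff_map, coeff_map]
  by_cases hi : i ∈ Finset.range (max A.natDegree B.natDegree + 1)
  · exact hl i hi
  · rw [Finset.mem_range] at hi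
    rw [coeff_eq_zero_of_natDegree_lt (p := A) (by omega),
      coeff_eq_zero_of_natDegree_lt (p := B) (by omega)]

theorem mk_ne {u : ℕ → L} (h : Om.mk u ≠ 0) :
    ∀ᶠ l in (Filter.hyperfilter ℕ : Filter ℕ), u l ≠ 0 := by
  have h1 : ¬ ∀ᶠ l in (Filter.hyperfilter ℕ : Filter ℕ), u l = 0 := by
    intro h2
    exact h (Om.mk_eq.2 h2)
  exact (Ultrafilter.eventually_not (f := Filter.hyperfilter ℕ)).2 h1

end

section

variable {k L : Type} [Field k] [Field L] [Algebra k L]

/-- if the limit polynomial is divisible by the `m`-th power of a nonconstant polynomial then so are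
terms of the sequence -/
theorem dvd_coe {HE : (EE k L)[X]} {Hs : ℕ → L[X]} {d m : ℕ} (hd : HE.natDegree ≤ d)
    (hds : ∀ l, (Hs l).natDegree ≤ d)
    (hc : ∀ i, ((HE.coeff i : EE k L) : Om L) = Om.mk fun l => (Hs l).coeff i)
    {p : (EE k L)[X]} (hp : 1 ≤ p.natDegree) (hm : p ^ m ∣ HE) :
    ∃ (l : ℕ) (p' : L[X]), 1 ≤ p'.natDegree ∧ p' ^ m ∣ Hs l := by
  classical
  obtain ⟨q, hq⟩ := hm
  have hsur : Function.Surjective (mkHom L) := fun x => Om.mk_surj x
  have hinj : Function.Injective (Subfield.subtype (EE k L)) := Subtype.val_injective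
  obtain ⟨P, hP⟩ := Polynomial.map_surjective (mkHom L) hsur (p.map (Subfield.subtype (EE k L)))
  obtain ⟨Q, hQ⟩ := Polynomial.map_surjective (mkHom L) hsur (q.map (Subfield.subtype (EE k L)))
  let H : (ℕ → L)[X] := ∑ i ∈ Finset.range (d + 1), C (fun l => (Hs l).coeff i) * X ^ i
  have hHc : ∀ i, i ≤ d → H.coeff i = fun l => (Hs l).coeff i := by
    intro i hi
    simp only [H, finsetSum_coeff, coeff_C_mul, coeff_X_pow, mul_ite, mul_one, mul_zero]
    rw [Finset.sum_ite_eq, if_pos (Finset.mem_range.2 (by omega))]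
  have hHc' : ∀ i, d < i → H.coeff i = 0 := by
    intro i hi
    simp only [H, finsetSum_coeff, coeff_C_mul, coeff_X_pow, mul_ite, mul_one, mul_zero]
    rw [Finset.sum_ite_eq, if_neg (by rw [Finset.mem_range]; omega)]
  have hHs : ∀ l, H.map (Pi.evalRingHom (fun _ => L) l) = Hs l := by
    intro l
    ext i
    rw [coeff_map]
    by_cases hi : i ≤ d
    · rw [hHc i hi]
      rfl
    · push Not at hi
      rw [hHc' i hi, map_zero, coeff_eq_zero_of_natDegree_lt ((hds l).trans_lt hi)]
  have hHE : H.map (mkHom L) = HE.map (Subfield.subtype (EE k L)) := by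
    ext i
    rw [coeff_map, coeff_map]
    by_cases hi : i ≤ d
    · rw [hHc i hi, mkHom_apply, ← hc i]
      rfl
    · push Not at hi
      rw [hHc' i hi, map_zero, coeff_eq_zero_of_natDegree_lt (hd.trans_lt hi), map_zero]
  have h1 : (P ^ m * Q).map (mkHom L) = H.map (mkHom L) := by
    rw [Polynomial.map_mul, Polynomial.map_pow, hP, hQ, hHE, hq, Polynomial.map_mul,
      Polynomial.map_pow]
  have h2 : Om.mk (P.coeff p.natDegree) ≠ 0 := by
    have h3 := congrArg (fun r => r.coeff p.natDegree) hP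
    simp only [coeff_map, mkHom_apply] at h3
    rw [h3, Ne, map_eq_zero]
    intro h0
    have h4 : p.leadingCoeff = 0 := h0
    rw [Polynomial.leadingCoeff_eq_zero] at h4
    rw [h4, natDegree_zero] at hp
    omega
  obtain ⟨l, hl1, hl2⟩ := ((map_eventually h1).and (mk_ne h2)).exists
  rw [hHs, Polynomial.map_mul, Polynomial.map_pow] at hl1
  refine ⟨l, P.map (Pi.evalRingHom (fun _ => L) l), ?_, Dvd.intro _ hl1⟩
  refine hp.trans (le_natDegree_of_ne_zero ?_)
  rw [coeff_map]
  exact hl2

end

end Pool.Agent.U463.PV
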